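import Pool.Agent.H.MP_33509c_nt.U2.Def

/-!
# U2/CardBo: the number of the boxes

PROOF: as `card_compl` and `card_Bxs` (Prod.lean). The complement of `Bo m` in `range m ^ 3` is `i + j + k ≥ 2 m + 1`; for fixed `i < m`
it has `∑_{j < m} (i + j - m - 1) = ∑_{j' < m} (i - 2 - j')` elements (truncated subtraction, `j' = m - 1 - j`), and
`2 * ∑_{j' < m} (i - 2 - j') = (i - 2) * (i - 1)` by `inner_sum` (for `i ≥ 2`; `0` if `i < 2`).
`3 * ∑_{i < m} (i - 2) * (i - 1) ≥ m ^ 3 - 6 m ^ 2 - 6` (in fact it is `(m - 1) (m - 2) (m - 3)`), by induction on `m`.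
-/

set_option autoImplicit false

namespace MP33509c

open Finset

private theorem CardBo_outer (m : ℕ) :
    m ^ 3 ≤ 3 * ∑ i ∈ range m, (i - 2) * (i - 2 + 1) + 6 * m ^ 2 + 6 := by
  induction m with
  | zero => simp
  | succ m ih =>
    rw [Finset.sum_range_succ]
    rcases Nat.lt_or_ge m 2 with h | h
    · interval_cases m <;> simp
    · obtain ⟨k, rfl⟩ : ∃ k, m = k + 2 := ⟨m - 2, by omega⟩
      have e : k + 2 - 2 = k := by omega
      rw [e]
      nlinarith [ih]

private theorem CardBo_compl (m : ℕ) : 6 * ((range m ×ˢ range m ×ˢ range m).filter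
    (fun t => ¬ (t.1 + t.2.1 + t.2.2 ≤ 2 * m))).card = 3 * ∑ i ∈ range m, (i - 2) * (i - 2 + 1) := by
  classical
  rw [Finset.card_filter, Finset.sum_product]
  have h1 : ∀ i ∈ range m, 2 * ∑ x ∈ range m ×ˢ range m,
      (if ¬ (i + x.1 + x.2 ≤ 2 * m) then 1 else 0) = (i - 2) * (i - 2 + 1) := by
    intro i hi
    rw [Finset.mem_range] at hi
    rw [Finset.sum_product]
    have h2 : ∀ j ∈ range m, ∑ k ∈ range m, (if ¬ (i + j + k ≤ 2 * m) then 1 else 0) =
        i + j - m - 1 := by
      intro j hj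
      rw [Finset.mem_range] at hj
      rw [← Finset.card_filter]
      have h3 : (range m).filter (fun k => ¬ (i + j + k ≤ 2 * m)) =
          Ico (2 * m + 1 - i - j) m := by
        ext k
        rw [Finset.mem_filter, Finset.mem_range, Finset.mem_Ico]
        omega
      rw [h3, Nat.card_Ico]
      omega
    rw [Finset.sum_congr rfl h2, ← Finset.sum_range_reflect]
    rw [← inner_sum (i - 2) m (by omega)]
    congr 1
    apply Finset.sum_congr rfl
    intro j hj
    rw [Finset.mem_range] at hj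
    omega
  rw [← Finset.sum_congr rfl h1, ← Finset.mul_sum]
  ring

theorem card_Bo (m : ℕ) : 6 * (Bo m).card ≤ 5 * m ^ 3 + 6 * m ^ 2 + 6 := by
  classical
  have h1 := CardBo_compl m
  have h0 := CardBo_outer m
  have h2 := Finset.card_filter_add_card_filter_not (s := range m ×ˢ range m ×ˢ range m)
    (fun t => t.1 + t.2.1 + t.2.2 ≤ 2 * m)
  rw [Finset.card_product, Finset.card_product, Finset.card_range] at h2
  have h3 : m * (m * m) = m ^ 3 := by ring
  unfold Bo
  omega

end MP33509c
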