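import Pool.Agent.H.MP_33509c_nt.Fin

/-!
# U2/Def: definitions for the two-sided form of the bound

`dm n a` is the smaller one of the divisor `a` of `n` and the complementary divisor `n / a`; `SM X` is the number of the
`n ≤ X` together with a triple of divisors of `n`, `n + 1`, `n + 2` whose smaller divisors have a product at most `X`.
The aim is `SM X ~ (5/6) K X (log X)^3`.
-/

set_option autoImplicit false

namespace MP33509c

open Finset

/-- the smaller one of a divisor `a` of `n` and the complementary divisor -/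
def dm (n a : ℕ) : ℕ := min a (n / a)

/-- the product of the smaller divisors -/
def pm (n : ℕ) (t : ℕ × ℕ × ℕ) : ℕ := dm n t.1 * dm (n + 1) t.2.1 * dm (n + 2) t.2.2

/-- the triples of divisors of `n`, `n + 1`, `n + 2` -/
def trip (n : ℕ) : Finset (ℕ × ℕ × ℕ) := n.divisors ×ˢ (n + 1).divisors ×ˢ (n + 2).divisors

/-- the number of the triples for which the product of the smaller divisors is at most `X` -/
def sm (X n : ℕ) : ℕ := ((trip n).filter fun t => pm n t ≤ X).card

/-- the sum over `n ≤ X` -/
def SM (X : ℕ) : ℕ := ∑ n ∈ Icc 1 X, sm X n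

/-- the triples of numbers at most `m` with product at most `X` -/
def Reg (m X : ℕ) : Finset (ℕ × ℕ × ℕ) :=
  (Icc 1 m ×ˢ Icc 1 m ×ˢ Icc 1 m).filter fun t => t.1 * t.2.1 * t.2.2 ≤ X

/-- the indices of the boxes which cover `Reg` -/
def Bo (m : ℕ) : Finset (ℕ × ℕ × ℕ) :=
  (range m ×ˢ range m ×ˢ range m).filter fun t => t.1 + t.2.1 + t.2.2 ≤ 2 * m

end MP33509c
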