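import Pool.Agent.H.MP_33509c_nt.U2.LoSum

/-!
# U2/LoLim: the lower limit

PROOF: copy of `liminf_bound` (Fin.lean) with `lower'` instead of `lower` and `(SM ⌊x⌋₊ : ℝ)` instead of `SS x`.
-/

set_option autoImplicit false

namespace MP33509c

open Finset Filter Topology

theorem low_lim (ε : ℝ) (hε : 0 < ε) : ∀ᶠ x : ℝ in atTop,
    (5 / 6 - ε) * KK * x * Real.log x ^ 3 ≤ (SM ⌊x⌋₊ : ℝ) := by
  have hK := KK_pos
  by_cases hε1 : 5 / 6 ≤ ε
  · filter_upwards [eventually_ge_atTop (1 : ℝ)] with x hx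
    have h1 : 0 ≤ Real.log x := Real.log_nonneg hx
    have h2 : (5 / 6 - ε) * KK * x * Real.log x ^ 3 ≤ 0 := by
      have h3 : 0 ≤ KK * x * Real.log x ^ 3 := by positivity
      have h4 : (5 / 6 - ε) * KK * x * Real.log x ^ 3 = (5 / 6 - ε) * (KK * x * Real.log x ^ 3) := by ring
      rw [h4]
      exact mul_nonpos_of_nonpos_of_nonneg (by linarith) h3
    exact h2.trans (Nat.cast_nonneg _)
  rw [not_le] at hε1
  -- choose M
  obtain ⟨M, hM⟩ : ∃ M : ℕ, 5 / ε < M := exists_nat_gt _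
  have hM0' : (0 : ℝ) < M := lt_trans (by positivity) hM
  have hM0 : 0 < M := by exact_mod_cast hM0'
  -- choose z
  obtain ⟨z, hz⟩ : ∃ z : ℕ, 96 / (ε * KK) < z := exists_nat_gt _
  have hz0' : (0 : ℝ) < z := lt_trans (by positivity) hz
  have hz0 : 0 < z := by exact_mod_cast hz0'
  set Mz : ℝ := 11 / 16 * ∏ p ∈ oddPrimes z, fp p with hMz
  set Q : ℕ := 4 * ∏ p ∈ oddPrimes z, p with hQ
  have hPM : PM (gz z) Mz Q := by
    have := PM_prod (oddPrimes z) (by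
      intro p hp
      have h := mem_oddPrimes.1 hp
      exact ⟨h.2, by omega⟩)
    exact this
  have hKM : KK ≤ Mz := KK_le z
  set B : ℝ := ((Bxs (M - 1)).card : ℝ) with hB
  have hB1 : 5 / 6 * ((M : ℝ) - 1) ^ 3 ≤ B := by
    have h1 := card_Bxs (M - 1)
    have h2 : (5 : ℝ) * ((M - 1 : ℕ) : ℝ) ^ 3 ≤ 6 * B := by
      rw [hB]
      exact_mod_cast h1
    rw [Nat.cast_sub hM0] at h2
    push_cast at h2
    linarith
  set C : ℝ := Real.log (2 * (1 + Q)) with hC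
  have hlim := tendsto_F B Mz C (6 / z) M hM0
  -- the limit is larger than the target
  have hM1 : (1 : ℝ) ≤ M := by exact_mod_cast hM0
  have hcube : (1 - 3 / (M : ℝ)) * (M : ℝ) ^ 3 ≤ ((M : ℝ) - 1) ^ 3 := by
    have h1 : (1 - 3 / (M : ℝ)) * (M : ℝ) ^ 3 = (M : ℝ) ^ 3 - 3 * (M : ℝ) ^ 2 := by
      field_simp
    rw [h1]
    nlinarith
  have hlimval : (5 / 6 - ε) * KK < 8 * ((1 - 0 - 0) * (B * (Mz * (1 / (2 * M) - C * 0) ^ 3) -
      (6 / z) * (0 + 1) ^ 3) - B * (0 * 0 ^ 3)) := by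
    have e1 : 8 * ((1 - 0 - 0) * (B * (Mz * (1 / (2 * M) - C * 0) ^ 3) -
      (6 / z) * (0 + 1) ^ 3) - B * (0 * 0 ^ 3)) = B / (M : ℝ) ^ 3 * Mz - 48 / z := by
      field_simp
      ring
    rw [e1]
    have h1 : 48 / (z : ℝ) < ε / 2 * KK := by
      rw [div_lt_iff₀ (by positivity)] at hz
      rw [div_lt_iff₀ hz0']
      nlinarith
    have h2 : 5 / 6 * (1 - 3 / (M : ℝ)) ≤ B / (M : ℝ) ^ 3 := by
      rw [le_div_iff₀ (by positivity)]
      calc 5 / 6 * (1 - 3 / (M : ℝ)) * (M : ℝ) ^ 3 = 5 / 6 * ((1 - 3 / (M : ℝ)) * (M : ℝ) ^ 3) := by ring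
        _ ≤ 5 / 6 * ((M : ℝ) - 1) ^ 3 := by gcongr
        _ ≤ B := hB1
    have h3 : 5 / 6 - ε / 2 < 5 / 6 * (1 - 3 / (M : ℝ)) := by
      have h4 : 5 / (M : ℝ) < ε := by
        rw [div_lt_iff₀ hM0']
        rw [div_lt_iff₀ hε] at hM
        linarith
      have h5 : 5 / 6 * (1 - 3 / (M : ℝ)) = 5 / 6 - 5 / (M : ℝ) / 2 := by ring
      rw [h5]
      linarith
    have h6 : (5 / 6 - ε / 2) * KK < B / (M : ℝ) ^ 3 * Mz := by
      have h7 : 0 ≤ B / (M : ℝ) ^ 3 := by positivity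
      calc (5 / 6 - ε / 2) * KK < (B / (M : ℝ) ^ 3) * KK := by
            apply mul_lt_mul_of_pos_right _ hK
            linarith
        _ ≤ B / (M : ℝ) ^ 3 * Mz := mul_le_mul_of_nonneg_left hKM h7
    have h8 : (5 / 6 - ε) * KK = (5 / 6 - ε / 2) * KK - ε / 2 * KK := by ring
    rw [h8]
    linarith
  have hev := hlim.eventually (lt_mem_nhds hlimval)
  -- positivity of l and of the bracket
  have hl : ∀ᶠ x : ℝ in atTop, 0 ≤ Real.log x / (2 * M) - C := by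
    have h1 : ∀ᶠ x : ℝ in atTop, C * (2 * M) ≤ Real.log x := Real.tendsto_log_atTop.eventually_ge_atTop _
    filter_upwards [h1] with x hx
    have : C ≤ Real.log x / (2 * M) := by
      rw [le_div_iff₀ (by positivity)]
      exact hx
    linarith
  have hG : Tendsto (fun x : ℝ => B * (Mz * (1 / (2 * M) - C * (1 / Real.log x)) ^ 3) -
      6 / z * (1 / Real.log x + 1) ^ 3) atTop
      (𝓝 (B * (Mz * (1 / (2 * M) - C * 0) ^ 3) - 6 / z * (0 + 1) ^ 3)) := by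
    have t4 := tendsto_log_inv
    refine Tendsto.sub ?_ ?_
    · refine Tendsto.const_mul B (Tendsto.const_mul Mz ?_)
      exact (tendsto_const_nhds.sub (t4.const_mul C)).pow 3
    · exact ((t4.add tendsto_const_nhds).pow 3).const_mul _
  have hGpos : 0 < B * (Mz * (1 / (2 * M) - C * 0) ^ 3) - 6 / z * (0 + 1) ^ 3 := by
    have h1 : 0 < (5 / 6 - ε) * KK := mul_pos (by linarith) hK
    have h2 := h1.trans hlimval
    nlinarith
  have hG2 := hG.eventually (lt_mem_nhds hGpos)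
  filter_upwards [hev, hl, hG2, eventually_gt_atTop (1 : ℝ)] with x h1 h2 h3 h4
  have hx0 : 0 < x := by linarith
  have hL : 0 < Real.log x := Real.log_pos h4
  have e1 : ((Bxs (M - 1)).card : ℝ) * (Mz * (Real.log x / (2 * M) - Real.log (2 * (1 + Q))) ^ 3) -
      6 / z * (1 + Real.log x) ^ 3 = Real.log x ^ 3 * (B * (Mz * (1 / (2 * M) - C * (1 / Real.log x)) ^ 3) -
      6 / z * (1 / Real.log x + 1) ^ 3) := by
    rw [← hB, ← hC]
    have e2 : Real.log x / (2 * M) - C = Real.log x * (1 / (2 * M) - C * (1 / Real.log x)) := by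
      field_simp
    have e3 : 1 + Real.log x = Real.log x * (1 / Real.log x + 1) := by
      field_simp
    rw [e2, e3]
    ring
  have h5 := lower' z M Q Mz hz0 hM0 hPM x h4.le h2 (by
    rw [e1]
    exact mul_nonneg (by positivity) h3.le)
  refine le_trans ?_ h5
  rw [e1]
  have e4 : x ^ (1 - 1 / (M : ℝ)) = x * x ^ (-(1 / (M : ℝ))) := by
    rw [sub_eq_add_neg, Real.rpow_add hx0, Real.rpow_one]
  have e5 : x ^ (1 - 1 / (2 * M : ℝ)) = x * x ^ (-(1 / (2 * M : ℝ))) := by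
    rw [sub_eq_add_neg, Real.rpow_add hx0, Real.rpow_one]
  rw [e4, e5]
  have e6 : 8 * ((x - 1 - x * x ^ (-(1 / (M : ℝ)))) * (Real.log x ^ 3 *
      (B * (Mz * (1 / (2 * M) - C * (1 / Real.log x)) ^ 3) - 6 / z * (1 / Real.log x + 1) ^ 3)) -
      ((Bxs (M - 1)).card : ℝ) * (x * x ^ (-(1 / (2 * M : ℝ))))) =
      (x * Real.log x ^ 3) * (8 * ((1 - 1 / x - x ^ (-(1 / (M : ℝ)))) *
      (B * (Mz * (1 / (2 * M) - C * (1 / Real.log x)) ^ 3) - 6 / z * (1 / Real.log x + 1) ^ 3) -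
      B * (x ^ (-(1 / (2 * M : ℝ))) * (1 / Real.log x) ^ 3))) := by
    rw [← hB]
    generalize (B * (Mz * (1 / (2 * M) - C * (1 / Real.log x)) ^ 3) - 6 / z * (1 / Real.log x + 1) ^ 3) = G
    generalize x ^ (-(1 / (M : ℝ))) = u
    generalize x ^ (-(1 / (2 * M : ℝ))) = v
    field_simp
  rw [e6]
  calc (5 / 6 - ε) * KK * x * Real.log x ^ 3 = (x * Real.log x ^ 3) * ((5 / 6 - ε) * KK) := by ring
    _ ≤ _ := mul_le_mul_of_nonneg_left h1.le (by positivity)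

end MP33509c
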