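import Pool.Agent.H.MP_33509c_nt.U2.Def

/-!
# U2/LoPt: the lower bound for one `n`

PROOF: every `t = (a, b, c)` in `D = R.filter (Div3 n)` gives the 8 triples `g t = {a, n / a} × {b, (n+1) / b} × {c, (n+2) / c}`
(`a * a < n` and `a ∣ n` give `a < n / a`; `U` works for `n + 1`, `n + 2` too), all in `trip n` with `pm n s = a b c ≤ X`
(`Nat.div_div_self`). The sets `g t` are disjoint, as `(dm n s.1, dm (n+1) s.2.1, dm (n+2) s.2.2) = t` for `s ∈ g t`.
So `8 * #D = #(D.biUnion g) ≤ sm X n` (`card_biUnion`).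
-/

set_option autoImplicit false

namespace MP33509c

open Finset

private theorem LoPt_one {m a : ℕ} (ha : a ∣ m) (h : a * a < m) :
    a < m / a ∧ dm m a = a ∧ dm m (m / a) = a ∧ a ∈ m.divisors ∧ m / a ∈ m.divisors := by
  have hm : 0 < m := lt_of_le_of_lt (Nat.zero_le _) h
  have ha0 : 0 < a := Nat.pos_of_dvd_of_pos ha hm
  have h1 : a < m / a := by
    obtain ⟨k, rfl⟩ := ha
    rw [Nat.mul_div_cancel_left k ha0]
    exact lt_of_mul_lt_mul_left h (Nat.zero_le a)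
  have h2 : m / (m / a) = a := Nat.div_div_self ha hm.ne'
  refine ⟨h1, ?_, ?_, ?_, ?_⟩
  · unfold dm
    exact min_eq_left h1.le
  · unfold dm
    rw [h2]
    exact min_eq_right h1.le
  · exact Nat.mem_divisors.2 ⟨ha, hm.ne'⟩
  · exact Nat.mem_divisors.2 ⟨Nat.div_dvd_of_dvd ha, hm.ne'⟩

private def LoPt_g (n : ℕ) (t : ℕ × ℕ × ℕ) : Finset (ℕ × ℕ × ℕ) :=
  ({t.1, n / t.1} : Finset ℕ) ×ˢ ({t.2.1, (n + 1) / t.2.1} : Finset ℕ) ×ˢ
    ({t.2.2, (n + 2) / t.2.2} : Finset ℕ)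

private theorem LoPt_mem {n : ℕ} {t s : ℕ × ℕ × ℕ} (h : s ∈ LoPt_g n t) :
    (s.1 = t.1 ∨ s.1 = n / t.1) ∧ (s.2.1 = t.2.1 ∨ s.2.1 = (n + 1) / t.2.1) ∧
      (s.2.2 = t.2.2 ∨ s.2.2 = (n + 2) / t.2.2) := by
  unfold LoPt_g at h
  rw [mem_product, mem_product] at h
  simp only [mem_insert, mem_singleton] at h
  exact h

theorem low_pt (n X : ℕ) (U : Finset ℕ) (R : Finset (ℕ × ℕ × ℕ)) (hR : R ⊆ U ×ˢ U ×ˢ U)
    (hU : ∀ a ∈ U, a * a < n) (hX : ∀ t ∈ R, t.1 * t.2.1 * t.2.2 ≤ X) :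
    8 * (R.filter (Div3 n)).card ≤ sm X n := by
  have key : ∀ t ∈ R.filter (Div3 n), (t.1 ∣ n ∧ t.1 * t.1 < n) ∧
      (t.2.1 ∣ n + 1 ∧ t.2.1 * t.2.1 < n + 1) ∧ (t.2.2 ∣ n + 2 ∧ t.2.2 * t.2.2 < n + 2) := by
    intro t ht
    rw [mem_filter] at ht
    obtain ⟨htR, h1, h2, h3⟩ := ht
    have h4 := hR htR
    rw [mem_product, mem_product] at h4
    obtain ⟨h5, h6, h7⟩ := h4
    have h8 := hU _ h5
    have h9 := hU _ h6
    have h10 := hU _ h7
    exact ⟨⟨h1, h8⟩, ⟨h2, by omega⟩, ⟨h3, by omega⟩⟩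
  have hdm : ∀ t ∈ R.filter (Div3 n), ∀ s ∈ LoPt_g n t,
      dm n s.1 = t.1 ∧ dm (n + 1) s.2.1 = t.2.1 ∧ dm (n + 2) s.2.2 = t.2.2 ∧ s ∈ trip n := by
    intro t ht s hs
    obtain ⟨⟨a1, a2⟩, ⟨b1, b2⟩, ⟨c1, c2⟩⟩ := key t ht
    obtain ⟨-, a3, a4, a5, a6⟩ := LoPt_one a1 a2
    obtain ⟨-, b3, b4, b5, b6⟩ := LoPt_one b1 b2
    obtain ⟨-, c3, c4, c5, c6⟩ := LoPt_one c1 c2
    obtain ⟨ha, hb, hc⟩ := LoPt_mem hs
    refine ⟨?_, ?_, ?_, ?_⟩
    · rcases ha with h | h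
      · rw [h]
        exact a3
      · rw [h]
        exact a4
    · rcases hb with h | h
      · rw [h]
        exact b3
      · rw [h]
        exact b4
    · rcases hc with h | h
      · rw [h]
        exact c3
      · rw [h]
        exact c4
    · unfold trip
      rw [mem_product, mem_product]
      refine ⟨?_, ?_, ?_⟩
      · rcases ha with h | h
        · rw [h]
          exact a5
        · rw [h]
          exact a6
      · rcases hb with h | h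
        · rw [h]
          exact b5
        · rw [h]
          exact b6
      · rcases hc with h | h
        · rw [h]
          exact c5
        · rw [h]
          exact c6
  have hcard : ∀ t ∈ R.filter (Div3 n), (LoPt_g n t).card = 8 := by
    intro t ht
    obtain ⟨⟨a1, a2⟩, ⟨b1, b2⟩, ⟨c1, c2⟩⟩ := key t ht
    obtain ⟨a3, -⟩ := LoPt_one a1 a2
    obtain ⟨b3, -⟩ := LoPt_one b1 b2
    obtain ⟨c3, -⟩ := LoPt_one c1 c2
    unfold LoPt_g
    rw [card_product, card_product, card_pair a3.ne, card_pair b3.ne, card_pair c3.ne]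
  have hdisj : ∀ t ∈ R.filter (Div3 n), ∀ t' ∈ R.filter (Div3 n), t ≠ t' →
      Disjoint (LoPt_g n t) (LoPt_g n t') := by
    intro t ht t' ht' hne
    rw [Finset.disjoint_left]
    intro s hs hs'
    obtain ⟨h1, h2, h3, -⟩ := hdm t ht s hs
    obtain ⟨h1', h2', h3', -⟩ := hdm t' ht' s hs'
    exact hne (Prod.ext (h1.symm.trans h1') (Prod.ext (h2.symm.trans h2') (h3.symm.trans h3')))
  have hcu : ((R.filter (Div3 n)).biUnion (LoPt_g n)).card = 8 * (R.filter (Div3 n)).card := by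
    rw [card_biUnion hdisj, sum_congr rfl hcard, sum_const, smul_eq_mul, mul_comm]
  rw [← hcu]
  unfold sm
  refine card_le_card fun s hs => ?_
  obtain ⟨t, ht, hst⟩ := mem_biUnion.1 hs
  obtain ⟨h1, h2, h3, h4⟩ := hdm t ht s hst
  rw [mem_filter]
  refine ⟨h4, ?_⟩
  unfold pm
  rw [h1, h2, h3]
  exact hX t (mem_filter.1 ht).1

end MP33509c
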