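import Pool.Agent.H.MP_33509c_nt.U2.LoPt

/-!
# U2/LoSum: the lower bound

PROOF: copy `sum_ge`, `main_ineq` (Main.lean) and `lower` (Lower.lean) with `SM` instead of the sum of `ddd`: use `low_pt`
instead of `card_filter_le_ddd`; the set `R` of `main_ineq` is the union of the boxes `box A t`, `t ∈ Bx`, and for a triple in
`box A t` the product is at most `A (t.1 + 1) * A (t.2.1 + 1) * A (t.2.2 + 1) ≤ X` (new hypothesis; in `lower` it is at most
`x ^ (1 - 1 / (2 M)) ≤ x`, as shown at the end of the proof of `lower`).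
-/

set_option autoImplicit false

namespace MP33509c

open Finset

private theorem LoSum_sum_ge (Y X : ℕ) (U : Finset ℕ) (R : Finset (ℕ × ℕ × ℕ))
    (hR : R ⊆ U ×ˢ U ×ˢ U) (hU : ∀ a ∈ U, 0 < a ∧ a * a ≤ Y)
    (hX : ∀ t ∈ R, t.1 * t.2.1 * t.2.2 ≤ X) :
    8 * (((X : ℝ) - Y) * ∑ t ∈ R, (rho t.1 t.2.1 t.2.2 : ℝ) * wt t - R.card) ≤
      ∑ n ∈ Icc 1 X, (sm X n : ℝ) := by
  classical
  have h1 : ∑ n ∈ Ioc Y X, (sm X n : ℝ) ≤ ∑ n ∈ Icc 1 X, (sm X n : ℝ) := by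
    apply Finset.sum_le_sum_of_subset_of_nonneg
    · intro n hn
      rw [Finset.mem_Ioc] at hn
      rw [Finset.mem_Icc]
      omega
    · intro _ _ _
      exact Nat.cast_nonneg _
  refine le_trans ?_ h1
  have h2 : ∑ n ∈ Ioc Y X, ((8 * (R.filter (Div3 n)).card : ℕ) : ℝ) ≤ ∑ n ∈ Ioc Y X, (sm X n : ℝ) := by
    apply Finset.sum_le_sum
    intro n hn
    rw [Finset.mem_Ioc] at hn
    exact_mod_cast low_pt n X U R hR (fun a ha => lt_of_le_of_lt (hU a ha).2 hn.1) hX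
  refine le_trans ?_ h2
  have h3 : ∑ n ∈ Ioc Y X, ((8 * (R.filter (Div3 n)).card : ℕ) : ℝ) =
      8 * ∑ t ∈ R, (((Ioc Y X).filter (fun n => Div3 n t)).card : ℝ) := by
    have h4 : ∑ n ∈ Ioc Y X, (R.filter (Div3 n)).card = ∑ t ∈ R, ((Ioc Y X).filter (fun n => Div3 n t)).card := by
      simp only [Finset.card_filter]
      rw [Finset.sum_comm]
    have h5 : ∑ n ∈ Ioc Y X, ((8 * (R.filter (Div3 n)).card : ℕ) : ℝ) =
        8 * ((∑ n ∈ Ioc Y X, (R.filter (Div3 n)).card : ℕ) : ℝ) := by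
      push_cast
      rw [Finset.mul_sum]
    rw [h5, h4]
    push_cast
    rfl
  rw [h3]
  apply mul_le_mul_of_nonneg_left _ (by norm_num)
  rw [Finset.mul_sum, Finset.card_eq_sum_ones]
  push_cast
  rw [← Finset.sum_sub_distrib]
  apply Finset.sum_le_sum
  intro t ht
  have htU := hR ht
  simp only [Finset.mem_product] at htU
  have := count_ge t.1 t.2.1 t.2.2 Y X (hU _ htU.1).1 (hU _ htU.2.1).1 (hU _ htU.2.2).1
  refine le_trans (le_of_eq ?_) this
  unfold wt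
  have e1 : (t.1 : ℝ) ≠ 0 := by have := (hU _ htU.1).1; positivity
  have e2 : (t.2.1 : ℝ) ≠ 0 := by have := (hU _ htU.2.1).1; positivity
  have e3 : (t.2.2 : ℝ) ≠ 0 := by have := (hU _ htU.2.2).1; positivity
  field_simp

private theorem LoSum_main_ineq (z m Y X Q : ℕ) (Mz l : ℝ) (hz : 0 < z) (hPM : PM (gz z) Mz Q) (A : ℕ → ℕ)
    (hA : Monotone A) (hY : A m * A m ≤ Y) (hYX : Y ≤ X)
    (Bx : Finset (ℕ × ℕ × ℕ)) (hBx : ∀ t ∈ Bx, t.1 < m ∧ t.2.1 < m ∧ t.2.2 < m)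
    (hl0 : 0 ≤ l) (hl : ∀ i < m, l ≤ Real.log ((A (i + 1) : ℝ) / (A i + Q)))
    (hBX : ∀ t ∈ Bx, A (t.1 + 1) * A (t.2.1 + 1) * A (t.2.2 + 1) ≤ X) :
    8 * (((X : ℝ) - Y) * (Bx.card * (Mz * l ^ 3) - 6 / z * Hs (A m) ^ 3) -
      ∑ t ∈ Bx, (A (t.1 + 1) : ℝ) * A (t.2.1 + 1) * A (t.2.2 + 1)) ≤
      ∑ n ∈ Icc 1 X, (sm X n : ℝ) := by
  classical
  set R := Bx.biUnion (box A) with hRdef
  have hsub : ∀ t ∈ Bx, box A t ⊆ (Icc 1 (A m)) ×ˢ (Icc 1 (A m)) ×ˢ (Icc 1 (A m)) := by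
    intro t ht x hx
    unfold box at hx
    obtain ⟨h1, h2, h3⟩ := hBx t ht
    have m1 : A (t.1 + 1) ≤ A m := hA h1
    have m2 : A (t.2.1 + 1) ≤ A m := hA h2
    have m3 : A (t.2.2 + 1) ≤ A m := hA h3
    simp only [Finset.mem_product, Finset.mem_Ioc] at hx
    simp only [Finset.mem_product, Finset.mem_Icc]
    omega
  have hR : R ⊆ (Icc 1 (A m)) ×ˢ (Icc 1 (A m)) ×ˢ (Icc 1 (A m)) := by
    rw [hRdef, Finset.biUnion_subset]
    exact hsub
  have h1 := LoSum_sum_ge Y X (Icc 1 (A m)) R hR (by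
    intro a ha
    rw [Finset.mem_Icc] at ha
    refine ⟨by omega, le_trans (Nat.mul_le_mul ha.2 ha.2) hY⟩) (by
    intro t ht
    rw [hRdef, Finset.mem_biUnion] at ht
    obtain ⟨u, hu, htu⟩ := ht
    unfold box at htu
    simp only [Finset.mem_product, Finset.mem_Ioc] at htu
    exact (Nat.mul_le_mul (Nat.mul_le_mul htu.1.2 htu.2.1.2) htu.2.2.2).trans (hBX u hu))
  refine le_trans ?_ h1
  apply mul_le_mul_of_nonneg_left _ (by norm_num)
  have hwt : ∀ t, 0 ≤ wt t := by intro t; unfold wt; positivity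
  -- lower bound for the weighted sum
  have h2 : ∑ t ∈ R, (rho t.1 t.2.1 t.2.2 : ℝ) * wt t ≥
      Bx.card * (Mz * l ^ 3) - 6 / z * Hs (A m) ^ 3 := by
    have h3 : ∑ t ∈ R, (gz z t.1 t.2.1 t.2.2 - 2 * ind z t.1 t.2.1 t.2.2) * wt t ≤
        ∑ t ∈ R, (rho t.1 t.2.1 t.2.2 : ℝ) * wt t := by
      apply Finset.sum_le_sum
      intro t _
      exact mul_le_mul_of_nonneg_right (gz_sub_le_rho z _ _ _) (hwt t)
    have h4 : ∑ t ∈ R, (gz z t.1 t.2.1 t.2.2 - 2 * ind z t.1 t.2.1 t.2.2) * wt t =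
        ∑ t ∈ R, gz z t.1 t.2.1 t.2.2 * wt t - 2 * ∑ t ∈ R, ind z t.1 t.2.1 t.2.2 * wt t := by
      rw [Finset.mul_sum, ← Finset.sum_sub_distrib]
      apply Finset.sum_congr rfl
      intro t _
      ring
    have h5 : ∑ t ∈ R, gz z t.1 t.2.1 t.2.2 * wt t ≥ Bx.card * (Mz * l ^ 3) := by
      rw [hRdef, Finset.sum_biUnion (box_disj A hA Bx), ← nsmul_eq_mul, ← Finset.sum_const]
      apply Finset.sum_le_sum
      intro t ht
      obtain ⟨i1, i2, i3⟩ := hBx t ht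
      have h6 := box_ge hPM (A t.1) (A (t.1 + 1)) (A t.2.1) (A (t.2.1 + 1)) (A t.2.2) (A (t.2.2 + 1)) l
        hl0 (hl _ i1) (hl _ i2) (hl _ i3)
      refine h6.trans (le_of_eq ?_)
      unfold box
      rw [Finset.sum_product]
      apply Finset.sum_congr rfl
      intro a _
      rw [Finset.sum_product]
      apply Finset.sum_congr rfl
      intro b _
      apply Finset.sum_congr rfl
      intro c _
      unfold wt
      ring
    have h7 : ∑ t ∈ R, ind z t.1 t.2.1 t.2.2 * wt t ≤ 3 / z * Hs (A m) ^ 3 := by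
      have h8 : ∑ t ∈ R, ind z t.1 t.2.1 t.2.2 * wt t ≤
          ∑ t ∈ (Icc 1 (A m)) ×ˢ (Icc 1 (A m)) ×ˢ (Icc 1 (A m)), ind z t.1 t.2.1 t.2.2 * wt t := by
        apply Finset.sum_le_sum_of_subset_of_nonneg hR
        intro t _ _
        apply mul_nonneg _ (hwt t)
        unfold ind
        split_ifs <;> norm_num
      refine h8.trans ?_
      have h9 := sum_ind_le z (A m) hz
      refine le_trans (le_of_eq ?_) h9
      rw [Finset.sum_product]
      apply Finset.sum_congr rfl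
      intro a _
      rw [Finset.sum_product]
      apply Finset.sum_congr rfl
      intro b _
      apply Finset.sum_congr rfl
      intro c _
      unfold wt
      ring
    have h10 : 6 / (z : ℝ) * Hs (A m) ^ 3 = 2 * (3 / z * Hs (A m) ^ 3) := by ring
    rw [h10]
    linarith
  have h11 : (R.card : ℝ) ≤ ∑ t ∈ Bx, (A (t.1 + 1) : ℝ) * A (t.2.1 + 1) * A (t.2.2 + 1) := by
    have h12 : R.card ≤ ∑ t ∈ Bx, A (t.1 + 1) * A (t.2.1 + 1) * A (t.2.2 + 1) := by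
      refine le_trans (Finset.card_biUnion_le) ?_
      apply Finset.sum_le_sum
      intro t _
      unfold box
      rw [Finset.card_product, Finset.card_product, Nat.card_Ioc, Nat.card_Ioc, Nat.card_Ioc, mul_assoc]
      exact Nat.mul_le_mul (Nat.sub_le _ _) (Nat.mul_le_mul (Nat.sub_le _ _) (Nat.sub_le _ _))
    exact_mod_cast h12
  have h13 : (0 : ℝ) ≤ (X : ℝ) - Y := by
    have : (Y : ℝ) ≤ X := by exact_mod_cast hYX
    linarith
  have h14 := mul_le_mul_of_nonneg_left h2 h13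
  linarith

theorem lower' (z M Q : ℕ) (Mz : ℝ) (hz : 0 < z) (hM : 0 < M) (hPM : PM (gz z) Mz Q) (x : ℝ) (hx : 1 ≤ x)
    (hl0 : 0 ≤ Real.log x / (2 * M) - Real.log (2 * (1 + Q)))
    (hBr : 0 ≤ ((Bxs (M - 1)).card : ℝ) * (Mz * (Real.log x / (2 * M) - Real.log (2 * (1 + Q))) ^ 3) -
      6 / z * (1 + Real.log x) ^ 3) :
    8 * ((x - 1 - x ^ (1 - 1 / (M : ℝ))) *
      (((Bxs (M - 1)).card : ℝ) * (Mz * (Real.log x / (2 * M) - Real.log (2 * (1 + Q))) ^ 3) -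
      6 / z * (1 + Real.log x) ^ 3) - (Bxs (M - 1)).card * x ^ (1 - 1 / (2 * M : ℝ))) ≤
      (SM ⌊x⌋₊ : ℝ) := by
  classical
  have hx0 : 0 < x := by linarith
  have hM' : (0 : ℝ) < M := by exact_mod_cast hM
  have hz' : (0 : ℝ) < z := by exact_mod_cast hz
  set m := M - 1 with hm
  have hmM : (m : ℝ) = M - 1 := by
    rw [hm, Nat.cast_sub hM]; norm_num
  set l := Real.log x / (2 * M) - Real.log (2 * (1 + Q)) with hl
  have hlog : 0 ≤ Real.log x := Real.log_nonneg hx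
  -- Y
  set Y := ⌊x ^ (1 - 1 / (M : ℝ))⌋₊ with hYdef
  have hA : (Af M x m : ℝ) * Af M x m ≤ x ^ (1 - 1 / (M : ℝ)) := by
    have h1 := Af_le M x hx m
    have h2 : x ^ (1 - 1 / (M : ℝ)) = x ^ ((m : ℝ) / (2 * M)) * x ^ ((m : ℝ) / (2 * M)) := by
      rw [← Real.rpow_add hx0]
      congr 1
      rw [hmM]
      field_simp
      ring
    rw [h2]
    exact mul_le_mul h1 h1 (Nat.cast_nonneg _) (Real.rpow_nonneg hx0.le _)
  have hY : Af M x m * Af M x m ≤ Y := Nat.le_floor (by push_cast; exact hA)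
  have hYX : Y ≤ ⌊x⌋₊ := by
    apply Nat.floor_mono
    have : (1 : ℝ) - 1 / M ≤ 1 := by
      have : (0 : ℝ) ≤ 1 / M := by positivity
      linarith
    calc x ^ (1 - 1 / (M : ℝ)) ≤ x ^ (1 : ℝ) := Real.rpow_le_rpow_of_exponent_le hx this
      _ = x := Real.rpow_one x
  have hprod : ∀ t ∈ Bxs m, (Af M x (t.1 + 1) : ℝ) * Af M x (t.2.1 + 1) * Af M x (t.2.2 + 1) ≤
      x ^ (1 - 1 / (2 * M : ℝ)) := by
    intro t ht
    unfold Bxs at ht
    rw [Finset.mem_filter] at ht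
    have e1 := Af_le M x hx (t.1 + 1)
    have e2 := Af_le M x hx (t.2.1 + 1)
    have e3 := Af_le M x hx (t.2.2 + 1)
    calc (Af M x (t.1 + 1) : ℝ) * Af M x (t.2.1 + 1) * Af M x (t.2.2 + 1)
        ≤ x ^ (((t.1 + 1 : ℕ) : ℝ) / (2 * M)) * x ^ (((t.2.1 + 1 : ℕ) : ℝ) / (2 * M)) *
            x ^ (((t.2.2 + 1 : ℕ) : ℝ) / (2 * M)) := by gcongr
      _ = x ^ ((((t.1 + t.2.1 + t.2.2 + 3 : ℕ)) : ℝ) / (2 * M)) := by
          rw [← Real.rpow_add hx0, ← Real.rpow_add hx0]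
          congr 1
          push_cast
          ring
      _ ≤ x ^ (1 - 1 / (2 * M : ℝ)) := by
          apply Real.rpow_le_rpow_of_exponent_le hx
          have h2 : ((t.1 + t.2.1 + t.2.2 + 3 : ℕ) : ℝ) ≤ 2 * M - 1 := by
            have h3 : t.1 + t.2.1 + t.2.2 + 3 + 1 ≤ 2 * M := by omega
            have h4 : ((t.1 + t.2.1 + t.2.2 + 3 : ℕ) : ℝ) + 1 ≤ 2 * M := by exact_mod_cast h3
            linarith
          have h5 : (1 : ℝ) - 1 / (2 * M) = (2 * M - 1) / (2 * M) := by field_simp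
          rw [h5]
          gcongr
  have hprod' : ∀ t ∈ Bxs m, Af M x (t.1 + 1) * Af M x (t.2.1 + 1) * Af M x (t.2.2 + 1) ≤ ⌊x⌋₊ := by
    intro t ht
    apply Nat.le_floor
    push_cast
    refine (hprod t ht).trans ?_
    calc x ^ (1 - 1 / (2 * M : ℝ)) ≤ x ^ (1 : ℝ) := by
          apply Real.rpow_le_rpow_of_exponent_le hx
          have : (0 : ℝ) ≤ 1 / (2 * M) := by positivity
          linarith
      _ = x := Real.rpow_one x
  have hmain := LoSum_main_ineq z m Y ⌊x⌋₊ Q Mz l hz hPM (Af M x) (Af_mono M x hx) hY hYX (Bxs m)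
    (by
      intro t ht
      unfold Bxs at ht
      rw [Finset.mem_filter] at ht
      simp only [Finset.mem_product, Finset.mem_range] at ht
      exact ht.1) hl0 (fun i _ => Af_log M Q hM x hx i) hprod'
  have hSM : (SM ⌊x⌋₊ : ℝ) = ∑ n ∈ Icc 1 ⌊x⌋₊, (sm ⌊x⌋₊ n : ℝ) := by
    unfold SM
    push_cast
    rfl
  rw [hSM]
  refine le_trans ?_ hmain
  apply mul_le_mul_of_nonneg_left _ (by norm_num)
  apply sub_le_sub
  · have h1 : x - 1 - x ^ (1 - 1 / (M : ℝ)) ≤ ((⌊x⌋₊ : ℕ) : ℝ) - (Y : ℝ) := by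
      have h2 : x < (⌊x⌋₊ : ℝ) + 1 := Nat.lt_floor_add_one x
      have h3 : (Y : ℝ) ≤ x ^ (1 - 1 / (M : ℝ)) := Nat.floor_le (Real.rpow_nonneg hx0.le _)
      linarith
    have h4 : (0 : ℝ) ≤ ((⌊x⌋₊ : ℕ) : ℝ) - (Y : ℝ) := by
      have : (Y : ℝ) ≤ (⌊x⌋₊ : ℕ) := by exact_mod_cast hYX
      linarith
    have h5 : Hs (Af M x m) ≤ 1 + Real.log x := by
      refine (Hs_le _).trans ?_
      have h6 : 1 ≤ Af M x m := by
        unfold Af
        exact Nat.le_floor (by exact_mod_cast one_le_pow' x hx _ (by positivity))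
      have h7 : (Af M x m : ℝ) ≤ x := by
        refine (Af_le M x hx m).trans ?_
        calc x ^ ((m : ℝ) / (2 * M)) ≤ x ^ (1 : ℝ) := by
              apply Real.rpow_le_rpow_of_exponent_le hx
              rw [div_le_one (by positivity), hmM]
              linarith
          _ = x := Real.rpow_one x
      have h8 : (0 : ℝ) < Af M x m := by
        have : 0 < Af M x m := by omega
        exact_mod_cast this
      have := Real.log_le_log h8 h7
      linarith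
    have h9 : Hs (Af M x m) ^ 3 ≤ (1 + Real.log x) ^ 3 := pow_le_pow_left₀ (Hs_nonneg _) h5 3
    have h10 : ((Bxs m).card : ℝ) * (Mz * l ^ 3) - 6 / z * (1 + Real.log x) ^ 3 ≤
        ((Bxs m).card : ℝ) * (Mz * l ^ 3) - 6 / z * Hs (Af M x m) ^ 3 := by
      have : 6 / (z : ℝ) * Hs (Af M x m) ^ 3 ≤ 6 / z * (1 + Real.log x) ^ 3 := by gcongr
      linarith
    calc _ ≤ (((⌊x⌋₊ : ℕ) : ℝ) - (Y : ℝ)) * (((Bxs m).card : ℝ) * (Mz * l ^ 3) - 6 / z * (1 + Real.log x) ^ 3) :=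
          mul_le_mul_of_nonneg_right h1 hBr
      _ ≤ _ := mul_le_mul_of_nonneg_left h10 h4
  · rw [← nsmul_eq_mul, ← Finset.sum_const]
    apply Finset.sum_le_sum
    intro t ht
    exact hprod t ht

end MP33509c
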