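import Pool.Agent.H.MP_33509c_nt.U2.Def

/-!
# U2/MzLim: the finite products converge to the constant

PROOF: `multipliable_fp.hasProd` (Prod.lean): the finite products `∏ p ∈ s, fp p` over finite sets `s` of primes (`Nat.Primes`) tend to
the infinite product `P`, so some finite `s0` has `∏ p ∈ s, fp p ≤ P + δ` for all `s ⊇ s0`. Take `z ≥ 1` at least all elements of `s0` and
`s = ((insert 2 (oddPrimes z)).subtype Nat.Prime)`: its product is `fp 2 * ∏ p ∈ oddPrimes z, fp p = 1/2 * ∏` (see `KK_le` in Prod.lean),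
so `11/16 * ∏ p ∈ oddPrimes z, fp p = 11/8 * ∏ p ∈ s, fp p ≤ KK + 11/8 δ`.
-/

set_option autoImplicit false

namespace MP33509c

open Finset Filter Topology

theorem exists_Mz (δ : ℝ) (hδ : 0 < δ) :
    ∃ z : ℕ, 0 < z ∧ 11 / 16 * ∏ p ∈ oddPrimes z, fp p ≤ KK + δ := by
  classical
  have h1 : Tendsto (fun s : Finset Nat.Primes => ∏ p ∈ s, fp p) atTop
      (𝓝 (∏' p : Nat.Primes, fp p)) := multipliable_fp.hasProd
  have h2 := h1.eventually_le_const (show ∏' p : Nat.Primes, fp p < (∏' p : Nat.Primes, fp p) + δ / 2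
    by linarith)
  obtain ⟨s0, hs0⟩ := eventually_atTop.1 h2
  obtain ⟨z, hz⟩ : ∃ z : ℕ, ∀ p ∈ s0, (p : ℕ) ≤ z :=
    ⟨s0.sup fun p => (p : ℕ), fun p hp => Finset.le_sup (f := fun p : Nat.Primes => (p : ℕ)) hp⟩
  refine ⟨z + 1, Nat.succ_pos z, ?_⟩
  have hall : ∀ p ∈ insert 2 (oddPrimes (z + 1)), Nat.Prime p := by
    intro p hp
    rw [Finset.mem_insert] at hp
    rcases hp with h | h
    · rw [h]; exact Nat.prime_two
    · exact (mem_oddPrimes.1 h).2
  have hsub : s0 ⊆ ((insert 2 (oddPrimes (z + 1))).subtype Nat.Prime : Finset (Subtype Nat.Prime)) := by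
    intro p hp
    refine Finset.mem_subtype.2 ?_
    have h4 := hz p hp
    by_cases h5 : (p : ℕ) = 2
    · exact Finset.mem_insert.2 (Or.inl h5)
    · refine Finset.mem_insert.2 (Or.inr (mem_oddPrimes.2 ⟨⟨?_, ?_⟩, p.2⟩))
      · have := p.2.two_le
        omega
      · exact h4.trans (Nat.le_succ z)
  have h3 : ∏ p ∈ (insert 2 (oddPrimes (z + 1))).subtype Nat.Prime, fp p ≤
      (∏' p : Nat.Primes, fp p) + δ / 2 := hs0 _ hsub
  have hnot : 2 ∉ oddPrimes (z + 1) := by
    intro h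
    have h3 := (mem_oddPrimes.1 h).1.1
    omega
  rw [Finset.prod_subtype_of_mem fp hall, Finset.prod_insert hnot] at h3
  have h6 : fp 2 = 1 / 2 := by unfold fp; norm_num
  rw [h6] at h3
  unfold KK
  linarith

end MP33509c
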