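import Pool.Agent.H.MP_33509c_nt.U2.Def

/-!
# U2/UpBox: the upper bound for the sum over a box

PROOF. As `W_ge`, `one_var` and `box_ge` (Count.lean, Weight.lean) with the other inequalities. `W_le`: the elements of the class in
`Ioc A B` are `a_1 < a_2 < ...` with steps `Q`; `1 / a_(j+1) ≤ (1 / Q) (log a_(j+1) - log a_j)`, so the sum is at most
`1 / a_1 + (1 / Q) log (B / a_1) ≤ 1 + (1 / Q) log (B / (A + 1))`. (Or by induction on `B`: strengthen the statement to
`∑ ≤ 1 + (1 / Q) log (b / (A + 1))` where `b` is the largest element of the class in `Ioc A B`.)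
`box_le`: three times `one_var_le`, with `l / Q` replaced by `1 + l / Q`, and `M Q^3 (1 + l / Q)^3 = M (Q + l)^3`.
-/

set_option autoImplicit false

namespace MP33509c

open Finset

private theorem UpBox_step (Q A : ℕ) [NeZero Q] (r : ZMod Q) (B : ℕ) (hB : A + 1 ≤ B) :
    ∑ a ∈ (Ioc A B).filter (fun a => ((a : ℕ) : ZMod Q) = r), 1 / (a : ℝ) ≤
      1 + Real.log ((B : ℝ) / (A + 1)) / Q := by
  have hQ : 0 < Q := Nat.pos_of_ne_zero (NeZero.ne Q)
  have hQ' : (0 : ℝ) < Q := by exact_mod_cast hQ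
  have hA' : (0 : ℝ) < (A : ℝ) + 1 := by positivity
  have hlog : ∀ n : ℕ, A + 1 ≤ n → 0 ≤ Real.log ((n : ℝ) / (A + 1)) := by
    intro n hn
    apply Real.log_nonneg
    rw [one_le_div hA']
    exact_mod_cast hn
  have hempty : ∀ n : ℕ, n ≤ A →
      ∑ a ∈ (Ioc A n).filter (fun a => ((a : ℕ) : ZMod Q) = r), 1 / (a : ℝ) = 0 := by
    intro n hn
    rw [Ioc_eq_empty_of_le hn, filter_empty, sum_empty]
  induction B using Nat.strong_induction_on with
  | _ B ih =>
    have hBpos : (0 : ℝ) < B := by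
      have : 0 < B := by omega
      exact_mod_cast this
    by_cases hr : ((B : ℕ) : ZMod Q) = r
    · have hset : (Ioc A B).filter (fun a => ((a : ℕ) : ZMod Q) = r) =
          insert B ((Ioc A (B - Q)).filter (fun a => ((a : ℕ) : ZMod Q) = r)) := by
        ext a
        rw [mem_insert, mem_filter, mem_filter, mem_Ioc, mem_Ioc]
        constructor
        · rintro ⟨⟨h1, h2⟩, h3⟩
          rcases Nat.lt_or_ge a B with h4 | h4
          · right
            refine ⟨⟨h1, ?_⟩, h3⟩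
            have h5 : ((a : ℕ) : ZMod Q) = ((B : ℕ) : ZMod Q) := h3.trans hr.symm
            have h6 : a ≡ B [MOD Q] := (ZMod.natCast_eq_natCast_iff a B Q).1 h5
            have h7 : Q ∣ B - a := (Nat.modEq_iff_dvd' h2).1 h6
            have h8 : Q ≤ B - a := Nat.le_of_dvd (by omega) h7
            omega
          · left
            omega
        · rintro (h | ⟨⟨h1, h2⟩, h3⟩)
          · rw [h]
            exact ⟨⟨by omega, le_rfl⟩, hr⟩
          · exact ⟨⟨h1, by omega⟩, h3⟩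
      have hnot : B ∉ (Ioc A (B - Q)).filter (fun a => ((a : ℕ) : ZMod Q) = r) := by
        rw [mem_filter, mem_Ioc]
        rintro ⟨⟨_, h2⟩, _⟩
        omega
      rw [hset, sum_insert hnot]
      rcases Nat.lt_or_ge A (B - Q) with h1 | h1
      · have h2 := ih (B - Q) (by omega) (by omega)
        have hx : ((B - Q : ℕ) : ℝ) = (B : ℝ) - Q := by
          rw [Nat.cast_sub (by omega)]
        rw [hx] at h2
        have hx0 : (0 : ℝ) < (B : ℝ) - Q := by
          rw [← hx]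
          have : 0 < B - Q := by omega
          exact_mod_cast this
        have h3 : Real.log ((B : ℝ) / (A + 1)) =
            Real.log (((B : ℝ) - Q) / (A + 1)) + Real.log ((B : ℝ) / ((B : ℝ) - Q)) := by
          rw [← Real.log_mul (by positivity) (by positivity)]
          congr 1
          field_simp
        have h4 : (Q : ℝ) / B ≤ Real.log ((B : ℝ) / ((B : ℝ) - Q)) := by
          have h5 := Real.one_sub_inv_le_log_of_pos (show 0 < (B : ℝ) / ((B : ℝ) - Q) by positivity)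
          have h6 : 1 - ((B : ℝ) / ((B : ℝ) - Q))⁻¹ = (Q : ℝ) / B := by
            rw [inv_div]
            field_simp
            ring
          rwa [h6] at h5
        have h7 : 1 / (B : ℝ) ≤ Real.log ((B : ℝ) / ((B : ℝ) - Q)) / Q := by
          rw [le_div_iff₀ hQ']
          calc 1 / (B : ℝ) * Q = (Q : ℝ) / B := by ring
            _ ≤ _ := h4
        rw [h3, add_div]
        linarith
      · rw [hempty _ h1, add_zero]
        have h2 : 1 / (B : ℝ) ≤ 1 := by
          rw [div_le_one hBpos]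
          have : 1 ≤ B := by omega
          exact_mod_cast this
        have h3 : 0 ≤ Real.log ((B : ℝ) / (A + 1)) / Q := div_nonneg (hlog B hB) hQ'.le
        linarith
    · have hset : (Ioc A B).filter (fun a => ((a : ℕ) : ZMod Q) = r) =
          (Ioc A (B - 1)).filter (fun a => ((a : ℕ) : ZMod Q) = r) := by
        ext a
        rw [mem_filter, mem_filter, mem_Ioc, mem_Ioc]
        constructor
        · rintro ⟨⟨h1, h2⟩, h3⟩
          refine ⟨⟨h1, ?_⟩, h3⟩
          rcases Nat.lt_or_ge a B with h4 | h4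
          · omega
          · exfalso
            apply hr
            have h5 : a = B := le_antisymm h2 h4
            rw [← h5]
            exact h3
        · rintro ⟨⟨h1, h2⟩, h3⟩
          exact ⟨⟨h1, by omega⟩, h3⟩
      rw [hset]
      rcases Nat.lt_or_ge A (B - 1) with h1 | h1
      · refine (ih (B - 1) (by omega) (by omega)).trans ?_
        have h2 : Real.log (((B - 1 : ℕ) : ℝ) / (A + 1)) ≤ Real.log ((B : ℝ) / (A + 1)) := by
          have h3 : (0 : ℝ) < ((B - 1 : ℕ) : ℝ) := by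
            have : 0 < B - 1 := by omega
            exact_mod_cast this
          apply Real.log_le_log (by positivity)
          apply div_le_div_of_nonneg_right _ hA'.le
          have : B - 1 ≤ B := by omega
          exact_mod_cast this
        have h4 := div_le_div_of_nonneg_right h2 hQ'.le
        linarith
      · rw [hempty _ h1]
        have h3 : 0 ≤ Real.log ((B : ℝ) / (A + 1)) / Q := div_nonneg (hlog B hB) hQ'.le
        linarith

theorem W_le (Q A B : ℕ) [NeZero Q] (r : ZMod Q) (l : ℝ) (hl0 : 0 ≤ l)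
    (hl : Real.log ((B : ℝ) / (A + 1)) ≤ l) :
    ∑ a ∈ (Ioc A B).filter (fun a => ((a : ℕ) : ZMod Q) = r), 1 / (a : ℝ) ≤ 1 + l / Q := by
  have hQ : 0 < Q := Nat.pos_of_ne_zero (NeZero.ne Q)
  have hQ' : (0 : ℝ) < Q := by exact_mod_cast hQ
  rcases Nat.lt_or_ge A B with h1 | h1
  · refine (UpBox_step Q A r B h1).trans ?_
    have h2 := div_le_div_of_nonneg_right hl hQ'.le
    linarith
  · rw [Ioc_eq_empty_of_le h1, filter_empty, sum_empty]
    have h2 : 0 ≤ l / Q := div_nonneg hl0 hQ'.le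
    linarith

private theorem UpBox_one (Q A B : ℕ) [NeZero Q] (f : ZMod Q → ℝ) (hf : ∀ r, 0 ≤ f r) (l : ℝ)
    (hl0 : 0 ≤ l) (hl : Real.log ((B : ℝ) / (A + 1)) ≤ l) :
    ∑ a ∈ Ioc A B, f (a : ZMod Q) * (1 / (a : ℝ)) ≤ (1 + l / Q) * ∑ r, f r := by
  classical
  have h1 : ∑ a ∈ Ioc A B, f (a : ZMod Q) * (1 / (a : ℝ)) =
      ∑ r : ZMod Q, ∑ a ∈ (Ioc A B).filter (fun a => ((a : ℕ) : ZMod Q) = r),
        f (a : ZMod Q) * (1 / (a : ℝ)) :=
    (Finset.sum_fiberwise (Ioc A B) (fun a => ((a : ℕ) : ZMod Q)) _).symm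
  rw [h1, Finset.mul_sum]
  apply Finset.sum_le_sum
  intro r _
  have h2 : ∑ a ∈ (Ioc A B).filter (fun a => ((a : ℕ) : ZMod Q) = r),
        f (a : ZMod Q) * (1 / (a : ℝ)) =
      f r * ∑ a ∈ (Ioc A B).filter (fun a => ((a : ℕ) : ZMod Q) = r), (1 / (a : ℝ)) := by
    rw [Finset.mul_sum]
    apply Finset.sum_congr rfl
    intro a ha
    rw [Finset.mem_filter] at ha
    rw [ha.2]
  rw [h2, mul_comm (1 + l / (Q : ℝ))]
  exact mul_le_mul_of_nonneg_left (W_le Q A B r l hl0 hl) (hf r)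

theorem box_le {g : ℕ → ℕ → ℕ → ℝ} {M : ℝ} {Q : ℕ} (h : PM g M Q) (A1 B1 A2 B2 A3 B3 : ℕ) (l : ℝ)
    (hl0 : 0 ≤ l) (h1 : Real.log ((B1 : ℝ) / (A1 + 1)) ≤ l)
    (h2 : Real.log ((B2 : ℝ) / (A2 + 1)) ≤ l) (h3 : Real.log ((B3 : ℝ) / (A3 + 1)) ≤ l) :
    ∑ a ∈ Ioc A1 B1, ∑ b ∈ Ioc A2 B2, ∑ c ∈ Ioc A3 B3,
      g a b c * (1 / (a : ℝ)) * (1 / (b : ℝ)) * (1 / (c : ℝ)) ≤ M * (Q + l) ^ 3 := by
  obtain ⟨hQ, F, hF0, hF, hFs⟩ := h
  have hQ' : (0 : ℝ) < Q := by
    have : 0 < Q := Nat.pos_of_ne_zero hQ.out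
    exact_mod_cast this
  obtain ⟨κ, hκ⟩ : ∃ κ : ℝ, κ = 1 + l / Q := ⟨_, rfl⟩
  have hκ0 : 0 ≤ κ := by
    rw [hκ]
    have := div_nonneg hl0 hQ'.le
    linarith
  have step3 : ∀ a b : ℕ, ∑ c ∈ Ioc A3 B3, F a b c * (1 / (c : ℝ)) ≤ κ * ∑ t, F a b t := by
    intro a b
    rw [hκ]
    exact UpBox_one Q A3 B3 (fun t => F a b t) (fun t => hF0 _ _ _) l hl0 h3
  have step2 : ∀ a : ℕ, ∑ b ∈ Ioc A2 B2, (κ * ∑ t, F a b t) * (1 / (b : ℝ)) ≤
      κ * ∑ s, (κ * ∑ t, F a s t) := by
    intro a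
    have h := UpBox_one Q A2 B2 (fun s => κ * ∑ t, F a s t)
      (fun s => mul_nonneg hκ0 (Finset.sum_nonneg (fun t _ => hF0 _ _ _))) l hl0 h2
    rw [← hκ] at h
    exact h
  have step1 : ∑ a ∈ Ioc A1 B1, (κ * ∑ s, (κ * ∑ t, F a s t)) * (1 / (a : ℝ)) ≤
      κ * ∑ r, (κ * ∑ s, (κ * ∑ t, F r s t)) := by
    have h := UpBox_one Q A1 B1 (fun r => κ * ∑ s, (κ * ∑ t, F r s t))
      (fun r => mul_nonneg hκ0 (Finset.sum_nonneg (fun s _ => mul_nonneg hκ0
        (Finset.sum_nonneg (fun t _ => hF0 _ _ _))))) l hl0 h1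
    rw [← hκ] at h
    exact h
  have e0 : M * (Q + l) ^ 3 = κ * ∑ r, (κ * ∑ s, (κ * ∑ t, F r s t)) := by
    simp only [← Finset.mul_sum]
    rw [hFs, hκ]
    field_simp
  rw [e0]
  refine le_trans ?_ step1
  apply Finset.sum_le_sum
  intro a _
  refine le_trans ?_ (mul_le_mul_of_nonneg_right (step2 a) (by positivity))
  rw [Finset.sum_mul]
  apply Finset.sum_le_sum
  intro b _
  refine le_trans (le_of_eq ?_) (mul_le_mul_of_nonneg_right
    (mul_le_mul_of_nonneg_right (step3 a b) (show (0 : ℝ) ≤ 1 / (b : ℝ) by positivity))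
    (show (0 : ℝ) ≤ 1 / (a : ℝ) by positivity))
  rw [Finset.sum_mul, Finset.sum_mul]
  apply Finset.sum_congr rfl
  intro c _
  rw [hF]
  ring

end MP33509c
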