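import Pool.Agent.H.MP_33509c_nt.U2.Def

/-!
# U2/UpCnt: upper bounds for one triple

PROOF. `count_le`: if the set is empty it is clear. Otherwise there is a solution `n0`; `a ∣ n0`, `b ∣ n0 + 1`, `c ∣ n0 + 2` give
`Coprime b a`, `Coprime b c`, `gcd a c ∣ 2`, so `rho a b c = gcd a c`. All solutions are congruent to `n0` modulo
`L = lcm a c * b` (`n - n0` is divisible by `a`, `b`, `c`, and `lcm a c`, `b` are coprime), so their number in `Icc 1 X` is at most
`X / L + 1` (for instance `Nat.Ioc_filter_modEq_card`, see `count_modEq_ge` in Count.lean for the lower bound), and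
`1 / L = gcd a c / (a b c)` as in the proof of `count_ge`.
`rho_le_gz`: if `rho a b c ≠ 0` then no odd prime divides two of `a`, `b`, `c` (so the product in `gz` is `1`), and with `g2z_eq`:
`g2z = gcd a c` (it is 2 if `a` and `c` are even: then `b` is odd and not both are divisible by 4 as `gcd a c ∣ 2`, and 1
otherwise), see the end of the proof of `gz_le_rho` in Weight.lean.
-/

set_option autoImplicit false

namespace MP33509c

open Finset

theorem UpCnt_modEq_le (L n0 X : ℕ) (hL : 0 < L) :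
    (((Ioc 0 X).filter (fun n => n ≡ n0 [MOD L])).card : ℝ) ≤ (X : ℝ) / L + 1 := by
  have h := Nat.Ioc_filter_modEq_card 0 X hL n0
  have hc : ((((Ioc 0 X).filter (fun n => n ≡ n0 [MOD L])).card : ℤ) : ℚ) ≤ (X : ℚ) / L + 1 := by
    rw [h]
    rcases max_choice (⌊((X : ℚ) - n0) / L⌋ - ⌊(((0 : ℕ) : ℚ) - n0) / L⌋) 0 with h2 | h2
    · rw [h2]
      have h3 := Int.floor_le (((X : ℚ) - n0) / L)
      have h4 := Int.lt_floor_add_one ((((0 : ℕ) : ℚ) - n0) / L)
      have h5 : ((X : ℚ) - n0) / L - (((0 : ℕ) : ℚ) - n0) / L = (X : ℚ) / L := by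
        push_cast
        ring
      rw [Int.cast_sub]
      linarith
    · rw [h2, Int.cast_zero]
      positivity
  have h6 : (((((Ioc 0 X).filter (fun n => n ≡ n0 [MOD L])).card : ℚ)) : ℝ) ≤
      (((X : ℚ) / L + 1 : ℚ) : ℝ) := by
    exact_mod_cast hc
  push_cast at h6
  exact h6

theorem count_le (a b c X : ℕ) (ha : 0 < a) (hb : 0 < b) (hc : 0 < c) :
    (((Icc 1 X).filter (fun n => Div3 n (a, b, c))).card : ℝ) ≤
      (rho a b c : ℝ) * X / (a * b * c) + 1 := by
  classical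
  rcases Finset.eq_empty_or_nonempty ((Icc 1 X).filter (fun n => Div3 n (a, b, c))) with h0 | h0
  · rw [h0, Finset.card_empty, Nat.cast_zero]
    positivity
  · obtain ⟨n0, hn0⟩ := h0
    rw [Finset.mem_filter] at hn0
    obtain ⟨-, k1, k2, k3⟩ := hn0
    have k1' : a ∣ n0 := k1
    have k2' : b ∣ n0 + 1 := k2
    have k3' : c ∣ n0 + 2 := k3
    have h1 : Nat.Coprime b a := by
      have e1 : Nat.gcd b a ∣ n0 := (Nat.gcd_dvd_right b a).trans k1'
      have e2 : Nat.gcd b a ∣ n0 + 1 := (Nat.gcd_dvd_left b a).trans k2'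
      exact Nat.dvd_one.1 ((Nat.dvd_add_right e1).1 e2)
    have h2 : Nat.Coprime b c := by
      have e1 : Nat.gcd b c ∣ n0 + 1 := (Nat.gcd_dvd_left b c).trans k2'
      have e2 : Nat.gcd b c ∣ n0 + 1 + 1 := (Nat.gcd_dvd_right b c).trans k3'
      exact Nat.dvd_one.1 ((Nat.dvd_add_right e1).1 e2)
    have h3 : Nat.gcd a c ∣ 2 := by
      have e1 : Nat.gcd a c ∣ n0 := (Nat.gcd_dvd_left a c).trans k1'
      have e2 : Nat.gcd a c ∣ n0 + 2 := (Nat.gcd_dvd_right a c).trans k3'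
      exact (Nat.dvd_add_right e1).1 e2
    have hrho : rho a b c = Nat.gcd a c := by
      unfold rho
      rw [if_pos ⟨h1, h2, h3⟩]
    have hL : 0 < Nat.lcm a c * b := Nat.mul_pos (Nat.lcm_pos ha hc) hb
    have hcop : Nat.Coprime (Nat.lcm a c) b := by
      apply Nat.Coprime.symm
      have : Nat.Coprime b (a * c) := Nat.Coprime.mul_right h1 h2
      exact Nat.Coprime.coprime_dvd_right (Nat.lcm_dvd_mul a c) this
    have h5 : ((Icc 1 X).filter (fun n => Div3 n (a, b, c))).card ≤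
        ((Ioc 0 X).filter (fun n => n ≡ n0 [MOD (Nat.lcm a c * b)])).card := by
      apply Finset.card_le_card
      intro n hn
      rw [Finset.mem_filter, Finset.mem_Icc] at hn
      rw [Finset.mem_filter, Finset.mem_Ioc]
      obtain ⟨hn1, m1, m2, m3⟩ := hn
      have m1' : a ∣ n := m1
      have m2' : b ∣ n + 1 := m2
      have m3' : c ∣ n + 2 := m3
      refine ⟨⟨by omega, hn1.2⟩, ?_⟩
      have e1 : n ≡ n0 [MOD a] :=
        ((Nat.modEq_zero_iff_dvd).2 m1').trans ((Nat.modEq_zero_iff_dvd).2 k1').symm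
      have e2 : n ≡ n0 [MOD b] := Nat.ModEq.add_right_cancel' 1
        (((Nat.modEq_zero_iff_dvd).2 m2').trans ((Nat.modEq_zero_iff_dvd).2 k2').symm)
      have e3 : n ≡ n0 [MOD c] := Nat.ModEq.add_right_cancel' 2
        (((Nat.modEq_zero_iff_dvd).2 m3').trans ((Nat.modEq_zero_iff_dvd).2 k3').symm)
      exact (Nat.modEq_and_modEq_iff_modEq_mul hcop).1 ⟨Nat.mod_lcm e1 e3, e2⟩
    have h6 : (Nat.gcd a c : ℝ) * (X : ℝ) / (a * b * c) =
        (X : ℝ) / ((Nat.lcm a c * b : ℕ) : ℝ) := by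
      have h7 : Nat.gcd a c * Nat.lcm a c = a * c := Nat.gcd_mul_lcm a c
      have h8 : (Nat.gcd a c : ℝ) * (Nat.lcm a c : ℝ) = (a : ℝ) * c := by exact_mod_cast h7
      have hg : (0 : ℝ) < Nat.gcd a c := by exact_mod_cast Nat.gcd_pos_of_pos_left c ha
      have hl : (0 : ℝ) < Nat.lcm a c := by exact_mod_cast Nat.lcm_pos ha hc
      have hb' : (0 : ℝ) < b := by exact_mod_cast hb
      have h9 : (a : ℝ) * b * c = (Nat.gcd a c : ℝ) * (Nat.lcm a c : ℝ) * b := by
        rw [h8]; ring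
      rw [h9]
      push_cast
      field_simp
    rw [hrho, h6]
    exact le_trans (by exact_mod_cast h5) (UpCnt_modEq_le _ n0 X hL)

theorem rho_le_gz (z a b c : ℕ) (ha : 0 < a) (hb : 0 < b) (hc : 0 < c) :
    (rho a b c : ℝ) ≤ gz z a b c := by
  classical
  by_cases h : Nat.Coprime b a ∧ Nat.Coprime b c ∧ Nat.gcd a c ∣ 2
  · have hrho : rho a b c = Nat.gcd a c := by
      unfold rho
      rw [if_pos h]
    obtain ⟨h1, h2, h3⟩ := h
    have n1 : ∀ p, p.Prime → ¬ (p ∣ a ∧ p ∣ b) := fun p hp h4 =>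
      Nat.Prime.one_lt hp |>.ne' (Nat.dvd_one.1 (h1 ▸ Nat.dvd_gcd h4.2 h4.1))
    have n2 : ∀ p, p.Prime → ¬ (p ∣ b ∧ p ∣ c) := fun p hp h4 =>
      Nat.Prime.one_lt hp |>.ne' (Nat.dvd_one.1 (h2 ▸ Nat.dvd_gcd h4.1 h4.2))
    have hprod1 : ∏ p ∈ oddPrimes z, gp p a b c = 1 := by
      apply Finset.prod_eq_one
      intro p hp
      rw [mem_oddPrimes] at hp
      unfold gp
      rw [if_neg]
      rintro (h4 | h4 | h4)
      · exact n1 p hp.2 h4
      · exact n2 p hp.2 h4
      · have h5 := Nat.le_of_dvd two_pos ((Nat.dvd_gcd h4.1 h4.2).trans h3)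
        omega
    have hval : gz z a b c = (g2z a b c : ℝ) := by
      unfold gz; rw [hprod1, mul_one]
    rw [hval, hrho, g2z_eq]
    by_cases h2ac : 2 ∣ a ∧ 2 ∣ c
    · have h2b : ¬ 2 ∣ b := fun h4 => n1 2 Nat.prime_two ⟨h2ac.1, h4⟩
      have h4 : ¬ (4 ∣ a ∧ 4 ∣ c) := by
        intro h5
        have h6 := Nat.le_of_dvd two_pos ((Nat.dvd_gcd h5.1 h5.2).trans h3)
        omega
      rw [if_pos ⟨h2b, h2ac.1, h2ac.2⟩, if_neg h4]
      exact_mod_cast Nat.le_of_dvd two_pos h3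
    · have hg : Nat.gcd a c = 1 := by
        rcases (Nat.dvd_prime Nat.prime_two).1 h3 with h4 | h4
        · exact h4
        · exact absurd ⟨h4 ▸ Nat.gcd_dvd_left a c, h4 ▸ Nat.gcd_dvd_right a c⟩ h2ac
      rw [if_neg (fun h4 => h2ac ⟨h4.2.1, h4.2.2⟩), if_neg, hg]
      rintro (h4 | h4 | h4)
      · exact n1 2 Nat.prime_two h4
      · exact n2 2 Nat.prime_two h4
      · exact h2ac h4
  · have hrho : rho a b c = 0 := by
      unfold rho
      rw [if_neg h]
    rw [hrho, Nat.cast_zero]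
    unfold gz
    exact mul_nonneg (Nat.cast_nonneg _) (Finset.prod_nonneg fun p _ => gp_nonneg p a b c)

end MP33509c
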