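import Pool.Agent.H.MP_33509c_nt.U2.UpBox

/-!
# U2/UpReg: the sum over the region

PROOF: the grid `A i = if i = 0 then 0 else ⌊y ^ (i / (2 M))⌋₊` (`i ≤ M`). A number `1 ≤ a ≤ m ≤ y ^ (1/2)` lies in
`Ioc (A i) (A (i + 1))` for some `i < M` (`A M ≥ m`, the least `i` with `a ≤ A (i + 1)`), and then `a ≥ y ^ (i / (2 M))`
(`a ≥ A i + 1 > y ^ (i / (2 M))` if `i > 0`). If `t ∈ Reg m X` lies in the box `(i, j, k)` then
`y ^ ((i + j + k) / (2 M)) ≤ t.1 t.2.1 t.2.2 ≤ X ≤ y`, so `i + j + k ≤ 2 M` as `1 < y`, i.e. `(i, j, k) ∈ Bo M`. So `Reg m X` is contained in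
`(Bo M).biUnion (box A)` (`sum_le_sum_of_subset_of_nonneg`, `gz ≥ 0` (`gz` is a product of numbers `≥ 0`), `wt ≥ 0`,
`sum_biUnion_le` or `sum_biUnion` with `box_disj`), and the sum over every box is at most `Mz (Q + log y / (2 M))^3` by `box_le`:
`A (i + 1) / (A i + 1) ≤ y ^ (1 / (2 M))`.
-/

set_option autoImplicit false

namespace MP33509c

open Finset

/-- the grid -/
private noncomputable def UpRegA (y : ℝ) (M i : ℕ) : ℕ := if i = 0 then 0 else ⌊y ^ ((i : ℝ) / (2 * M))⌋₊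

private lemma UpReg_mono (y : ℝ) (hy : 1 < y) (M : ℕ) : Monotone (UpRegA y M) := by
  intro i j hij
  unfold UpRegA
  by_cases hi : i = 0
  · rw [if_pos hi]
    exact Nat.zero_le _
  · have hj : j ≠ 0 := by omega
    rw [if_neg hi, if_neg hj]
    apply Nat.floor_le_floor
    apply Real.rpow_le_rpow_of_exponent_le hy.le
    have h1 : (i : ℝ) ≤ j := by exact_mod_cast hij
    gcongr

private lemma UpReg_lt (y : ℝ) (M i : ℕ) :
    y ^ ((i : ℝ) / (2 * M)) ≤ (UpRegA y M i : ℝ) + 1 := by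
  unfold UpRegA
  by_cases hi : i = 0
  · rw [if_pos hi, hi]
    simp
  · rw [if_neg hi]
    exact (Nat.lt_floor_add_one _).le

private lemma UpReg_le (y : ℝ) (hy : 1 < y) (M i : ℕ) :
    (UpRegA y M (i + 1) : ℝ) ≤ y ^ (((i : ℝ) + 1) / (2 * M)) := by
  unfold UpRegA
  rw [if_neg (Nat.succ_ne_zero i)]
  have h1 := Nat.floor_le (a := y ^ (((i + 1 : ℕ) : ℝ) / (2 * M))) (by positivity)
  push_cast at h1 ⊢
  exact h1

private lemma UpReg_log (y : ℝ) (hy : 1 < y) (M i : ℕ) (hM : 0 < M) :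
    Real.log ((UpRegA y M (i + 1) : ℝ) / (UpRegA y M i + 1)) ≤ Real.log y / (2 * M) := by
  have hM' : (0 : ℝ) < M := by exact_mod_cast hM
  have hy0 : (0 : ℝ) < y := by linarith
  have hly : 0 < Real.log y := Real.log_pos hy
  rcases Nat.eq_zero_or_pos (UpRegA y M (i + 1)) with h0 | h0
  · rw [h0]
    simp only [Nat.cast_zero, zero_div, Real.log_zero]
    positivity
  · have h1 : (0 : ℝ) < (UpRegA y M (i + 1) : ℝ) := by exact_mod_cast h0
    have h2 : (UpRegA y M (i + 1) : ℝ) / (UpRegA y M i + 1) ≤ y ^ ((1 : ℝ) / (2 * M)) := by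
      rw [div_le_iff₀ (by positivity)]
      calc (UpRegA y M (i + 1) : ℝ) ≤ y ^ (((i : ℝ) + 1) / (2 * M)) := UpReg_le y hy M i
        _ = y ^ ((1 : ℝ) / (2 * M)) * y ^ ((i : ℝ) / (2 * M)) := by
            rw [← Real.rpow_add hy0]
            congr 1
            ring
        _ ≤ y ^ ((1 : ℝ) / (2 * M)) * ((UpRegA y M i : ℝ) + 1) :=
            mul_le_mul_of_nonneg_left (UpReg_lt y M i) (by positivity)
    have h3 := Real.log_le_log (by positivity) h2
    rw [Real.log_rpow hy0] at h3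
    refine h3.trans (le_of_eq ?_)
    ring

private lemma UpReg_idx (y : ℝ) (hy : 1 < y) (M m a : ℕ) (hM : 0 < M)
    (hm : (m : ℝ) ≤ y ^ ((1 : ℝ) / 2)) (ha1 : 1 ≤ a) (ham : a ≤ m) :
    ∃ i < M, a ∈ Ioc (UpRegA y M i) (UpRegA y M (i + 1)) ∧ y ^ ((i : ℝ) / (2 * M)) ≤ a := by
  classical
  have hM' : (0 : ℝ) < M := by exact_mod_cast hM
  have hP : a ≤ UpRegA y M ((M - 1) + 1) := by
    rw [Nat.sub_add_cancel hM]
    refine ham.trans ?_
    unfold UpRegA
    rw [if_neg (by omega)]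
    apply Nat.le_floor
    refine hm.trans (le_of_eq ?_)
    congr 1
    field_simp
  have hex : ∃ i, a ≤ UpRegA y M (i + 1) := ⟨M - 1, hP⟩
  obtain ⟨i, hi⟩ : ∃ i, i = Nat.find hex := ⟨_, rfl⟩
  have h1 : a ≤ UpRegA y M (i + 1) := by
    rw [hi]
    exact Nat.find_spec hex
  have h2 : i ≤ M - 1 := by
    rw [hi]
    exact Nat.find_min' hex hP
  have h3 : UpRegA y M i < a := by
    rcases Nat.eq_zero_or_pos i with h0 | h0
    · rw [h0]
      unfold UpRegA
      rw [if_pos rfl]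
      omega
    · by_contra hcon
      have h4 : a ≤ UpRegA y M ((i - 1) + 1) := by
        rw [Nat.sub_add_cancel h0]
        omega
      have h5 : i ≤ i - 1 := by
        conv_lhs => rw [hi]
        exact Nat.find_min' hex h4
      omega
  refine ⟨i, by omega, Finset.mem_Ioc.2 ⟨h3, h1⟩, ?_⟩
  refine (UpReg_lt y M i).trans ?_
  exact_mod_cast h3

private lemma UpReg_gz (z a b c : ℕ) : 0 ≤ gz z a b c := by
  unfold gz
  exact mul_nonneg (Nat.cast_nonneg _) (Finset.prod_nonneg (fun p _ => gp_nonneg p a b c))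

private lemma UpReg_sub (M m X : ℕ) (hM : 0 < M) (y : ℝ) (hy : 1 < y)
    (hm : (m : ℝ) ≤ y ^ ((1 : ℝ) / 2)) (hX : (X : ℝ) ≤ y) :
    Reg m X ⊆ (Bo M).biUnion (box (UpRegA y M)) := by
  intro t ht
  have hM' : (0 : ℝ) < M := by exact_mod_cast hM
  have hy0 : (0 : ℝ) < y := by linarith
  unfold Reg at ht
  simp only [Finset.mem_filter, Finset.mem_product, Finset.mem_Icc] at ht
  obtain ⟨⟨⟨a1, a2⟩, ⟨b1, b2⟩, ⟨c1, c2⟩⟩, hp⟩ := ht
  obtain ⟨i, hi, hai, hyi⟩ := UpReg_idx y hy M m t.1 hM hm a1 a2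
  obtain ⟨j, hj, hbj, hyj⟩ := UpReg_idx y hy M m t.2.1 hM hm b1 b2
  obtain ⟨k, hk, hck, hyk⟩ := UpReg_idx y hy M m t.2.2 hM hm c1 c2
  rw [Finset.mem_biUnion]
  refine ⟨(i, j, k), ?_, ?_⟩
  · unfold Bo
    simp only [Finset.mem_filter, Finset.mem_product, Finset.mem_range]
    refine ⟨⟨hi, hj, hk⟩, ?_⟩
    have h1 : y ^ (((i : ℝ) + j + k) / (2 * M)) ≤ y ^ (1 : ℝ) := by
      have e1 : y ^ (((i : ℝ) + j + k) / (2 * M)) =
          y ^ ((i : ℝ) / (2 * M)) * y ^ ((j : ℝ) / (2 * M)) * y ^ ((k : ℝ) / (2 * M)) := by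
        rw [← Real.rpow_add hy0, ← Real.rpow_add hy0]
        congr 1
        ring
      rw [e1, Real.rpow_one]
      calc y ^ ((i : ℝ) / (2 * M)) * y ^ ((j : ℝ) / (2 * M)) * y ^ ((k : ℝ) / (2 * M))
          ≤ (t.1 : ℝ) * t.2.1 * t.2.2 := by
            apply mul_le_mul (mul_le_mul hyi hyj (by positivity) (by positivity)) hyk
              (by positivity) (by positivity)
        _ ≤ (X : ℝ) := by exact_mod_cast hp
        _ ≤ y := hX
    have h2 := (Real.rpow_le_rpow_left_iff hy).1 h1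
    rw [div_le_iff₀ (by positivity), one_mul] at h2
    exact_mod_cast h2
  · unfold box
    simp only [Finset.mem_product]
    exact ⟨hai, hbj, hck⟩

theorem reg_le (z M Q m X : ℕ) (Mz : ℝ) (hM : 0 < M) (hPM : PM (gz z) Mz Q) (y : ℝ) (hy : 1 < y)
    (hm : (m : ℝ) ≤ y ^ ((1 : ℝ) / 2)) (hX : (X : ℝ) ≤ y) :
    ∑ t ∈ Reg m X, gz z t.1 t.2.1 t.2.2 * wt t ≤
      ((Bo M).card : ℝ) * (Mz * (Q + Real.log y / (2 * M)) ^ 3) := by
  classical
  have hwt : ∀ t, 0 ≤ wt t := by intro t; unfold wt; positivity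
  have hM' : (0 : ℝ) < M := by exact_mod_cast hM
  have hly : 0 < Real.log y := Real.log_pos hy
  have h1 : ∑ t ∈ Reg m X, gz z t.1 t.2.1 t.2.2 * wt t ≤
      ∑ t ∈ (Bo M).biUnion (box (UpRegA y M)), gz z t.1 t.2.1 t.2.2 * wt t := by
    apply Finset.sum_le_sum_of_subset_of_nonneg (UpReg_sub M m X hM y hy hm hX)
    intro t _ _
    exact mul_nonneg (UpReg_gz z _ _ _) (hwt t)
  refine h1.trans ?_
  rw [Finset.sum_biUnion (box_disj _ (UpReg_mono y hy M) (Bo M)), ← nsmul_eq_mul, ← Finset.sum_const]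
  apply Finset.sum_le_sum
  intro t _
  have h6 := box_le hPM (UpRegA y M t.1) (UpRegA y M (t.1 + 1)) (UpRegA y M t.2.1)
    (UpRegA y M (t.2.1 + 1)) (UpRegA y M t.2.2) (UpRegA y M (t.2.2 + 1)) (Real.log y / (2 * M))
    (by positivity) (UpReg_log y hy M _ hM) (UpReg_log y hy M _ hM) (UpReg_log y hy M _ hM)
  refine le_trans (le_of_eq ?_) h6
  unfold box
  rw [Finset.sum_product]
  apply Finset.sum_congr rfl
  intro a _
  rw [Finset.sum_product]
  apply Finset.sum_congr rfl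
  intro b _
  apply Finset.sum_congr rfl
  intro c _
  unfold wt
  ring

end MP33509c
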