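import Pool.Agent.H.MP_33509c_nt.U2.UpSum
import Pool.Agent.H.MP_33509c_nt.U2.UpReg
import Pool.Agent.H.MP_33509c_nt.U2.CardBo
import Pool.Agent.H.MP_33509c_nt.U2.MzLim

/-!
# U2/UpLim: the upper limit

PROOF: given `ε` choose `δ` and `z` by `exists_Mz`, then `M` large, such that `(5/6 + 1/M + 1/M^3) (KK + δ) < (5/6 + ε) KK`. For `x ≥ 1` let
`X = ⌊x⌋₊`, `y = x + 3`, `m = Nat.sqrt (X + 2)` (`X + 2 < (m + 1)^2`, `m^2 ≤ X + 2 ≤ y`). By `SM_le`, `reg_le`, `card_Reg`, `Hs_le`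
(`Hs m ≤ 1 + log m ≤ 1 + log y`), `card_Bo`:
`SM X ≤ 8 x (#(Bo M) * (Mz * (Q + log y / (2 M))^3) + (1 + log y)^2)`, and the right side divided by `x (log x)^3` tends to
`8 #(Bo M) Mz / (2 M)^3 = #(Bo M) / M^3 * Mz ≤ (5/6 + 1/M + 1/M^3) Mz` as `log (x + 3) / log x → 1`.
-/

set_option autoImplicit false

namespace MP33509c

open Finset Filter Topology

/-- the upper bound for finite `x` -/
theorem upper (z M Q : ℕ) (Mz : ℝ) (hM : 0 < M) (hPM : PM (gz z) Mz Q) (x : ℝ) (hx : 1 ≤ x) :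
    (SM ⌊x⌋₊ : ℝ) ≤ 8 * (x * (((Bo M).card : ℝ) * (Mz * (Q + Real.log (x + 3) / (2 * M)) ^ 3)) +
      x * (1 + Real.log (x + 3)) ^ 2) := by
  classical
  obtain ⟨X, hX⟩ : ∃ X : ℕ, X = ⌊x⌋₊ := ⟨_, rfl⟩
  rw [← hX]
  have hXx : (X : ℝ) ≤ x := by
    rw [hX]
    exact Nat.floor_le (by linarith)
  obtain ⟨m, hm⟩ : ∃ m : ℕ, m = Nat.sqrt (X + 2) := ⟨_, rfl⟩
  have hm1 : X + 2 < (m + 1) * (m + 1) := by
    rw [hm]
    exact Nat.lt_succ_sqrt (X + 2)
  have hm2 : m * m ≤ X + 2 := by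
    rw [hm]
    exact Nat.sqrt_le (X + 2)
  have hm0 : 0 < m := by
    rcases Nat.eq_zero_or_pos m with h0 | h0
    · rw [h0] at hm1
      omega
    · exact h0
  have hm2' : (m : ℝ) * m ≤ x + 3 := by
    have h1 : ((m * m : ℕ) : ℝ) ≤ ((X + 2 : ℕ) : ℝ) := by exact_mod_cast hm2
    push_cast at h1
    linarith
  have hm0' : (1 : ℝ) ≤ m := by exact_mod_cast hm0
  have hmy : (m : ℝ) ≤ (x + 3) ^ ((1 : ℝ) / 2) := by
    rw [← Real.sqrt_eq_rpow]
    exact Real.le_sqrt_of_sq_le (by rw [pow_two]; exact hm2')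
  -- the constant is nonnegative
  have hMz : 0 ≤ Mz := by
    obtain ⟨hQ, F, hF0, hF, hFs⟩ := hPM
    have hQ' : (0 : ℝ) < (Q : ℝ) ^ 3 := by
      have : 0 < Q := Nat.pos_of_ne_zero hQ.out
      positivity
    have h1 : 0 ≤ Mz * (Q : ℝ) ^ 3 := by
      rw [← hFs]
      exact Finset.sum_nonneg fun r _ => Finset.sum_nonneg fun s _ =>
        Finset.sum_nonneg fun t _ => hF0 r s t
    exact nonneg_of_mul_nonneg_left h1 hQ'
  have hlog : 0 ≤ Real.log (x + 3) := Real.log_nonneg (by linarith)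
  have h1 := SM_le z X m hm1
  have h2 := reg_le z M Q m X Mz hM hPM (x + 3) (by linarith) hmy (by linarith)
  have h3 := card_Reg m X
  have h4 : Hs m ≤ 1 + Real.log (x + 3) := by
    have h5 := Hs_le m
    have h6 : Real.log m ≤ Real.log (x + 3) :=
      Real.log_le_log (by linarith) (by nlinarith)
    linarith
  have hB : 0 ≤ ((Bo M).card : ℝ) * (Mz * (Q + Real.log (x + 3) / (2 * M)) ^ 3) := by
    positivity
  have h7 : (X : ℝ) * ∑ t ∈ Reg m X, gz z t.1 t.2.1 t.2.2 * wt t ≤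
      x * (((Bo M).card : ℝ) * (Mz * (Q + Real.log (x + 3) / (2 * M)) ^ 3)) :=
    (mul_le_mul_of_nonneg_left h2 (Nat.cast_nonneg X)).trans (mul_le_mul_of_nonneg_right hXx hB)
  have h8 : ((Reg m X).card : ℝ) ≤ x * (1 + Real.log (x + 3)) ^ 2 := by
    refine h3.trans ?_
    exact mul_le_mul hXx (pow_le_pow_left₀ (Hs_nonneg m) h4 2) (pow_nonneg (Hs_nonneg m) 2)
      (by linarith)
  linarith

private theorem UpLim_log : Tendsto (fun x : ℝ => Real.log (x + 3) / Real.log x) atTop (𝓝 1) := by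
  have h1 : Tendsto (fun x : ℝ => 1 + Real.log (1 + 3 / x) * (1 / Real.log x)) atTop
      (𝓝 (1 + Real.log (1 + 0) * 0)) := by
    refine tendsto_const_nhds.add (Tendsto.mul ?_ tendsto_log_inv)
    refine (Real.continuousAt_log (by norm_num)).tendsto.comp ?_
    refine tendsto_const_nhds.add ?_
    exact Tendsto.div_atTop tendsto_const_nhds tendsto_id
  rw [mul_zero, add_zero] at h1
  refine h1.congr' ?_
  filter_upwards [eventually_gt_atTop (1 : ℝ)] with x hx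
  have hx0 : 0 < x := by linarith
  have hL : 0 < Real.log x := Real.log_pos hx
  have e1 : Real.log (x + 3) = Real.log x + Real.log (1 + 3 / x) := by
    rw [← Real.log_mul (by positivity) (by positivity)]
    congr 1
    field_simp
  rw [e1, add_div, div_self hL.ne']
  ring

/-- the limit -/
theorem up_tendsto (B Mz Q M : ℝ) (hM : 0 < M) :
    Tendsto (fun x : ℝ => 8 * (x * (B * (Mz * (Q + Real.log (x + 3) / (2 * M)) ^ 3)) +
      x * (1 + Real.log (x + 3)) ^ 2) / (x * Real.log x ^ 3)) atTop (𝓝 (B / M ^ 3 * Mz)) := by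
  have t1 := tendsto_log_inv
  have t2 := UpLim_log
  have h1 : Tendsto (fun x : ℝ => 8 * (B * (Mz * (Q * (1 / Real.log x) +
      Real.log (x + 3) / Real.log x / (2 * M)) ^ 3) +
      (1 / Real.log x + Real.log (x + 3) / Real.log x) ^ 2 * (1 / Real.log x))) atTop
      (𝓝 (8 * (B * (Mz * (Q * 0 + 1 / (2 * M)) ^ 3) + (0 + 1) ^ 2 * 0))) := by
    refine Tendsto.const_mul 8 (Tendsto.add (Tendsto.const_mul B (Tendsto.const_mul Mz ?_)) ?_)
    · exact ((t1.const_mul Q).add (t2.div_const _)).pow 3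
    · exact ((t1.add t2).pow 2).mul t1
  have e0 : 8 * (B * (Mz * (Q * 0 + 1 / (2 * M)) ^ 3) + (0 + 1) ^ 2 * 0) = B / M ^ 3 * Mz := by
    field_simp
    ring
  rw [e0] at h1
  refine h1.congr' ?_
  filter_upwards [eventually_gt_atTop (1 : ℝ)] with x hx
  have hx0 : 0 < x := by linarith
  have hL : 0 < Real.log x := Real.log_pos hx
  field_simp

theorem up_lim (ε : ℝ) (hε : 0 < ε) : ∀ᶠ x : ℝ in atTop,
    (SM ⌊x⌋₊ : ℝ) ≤ (5 / 6 + ε) * KK * x * Real.log x ^ 3 := by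
  classical
  have hK := KK_pos
  -- the parameters
  obtain ⟨η, hη⟩ : ∃ η : ℝ, η = min (ε / 4) 1 := ⟨_, rfl⟩
  have hη0 : 0 < η := by
    rw [hη]
    exact lt_min (by linarith) one_pos
  have hη1 : η ≤ ε / 4 := by
    rw [hη]
    exact min_le_left _ _
  have hη2 : η ≤ 1 := by
    rw [hη]
    exact min_le_right _ _
  obtain ⟨z, hz0, hz⟩ := exists_Mz (ε * KK / 4) (by positivity)
  obtain ⟨Mz, hMz⟩ : ∃ Mz : ℝ, Mz = 11 / 16 * ∏ p ∈ oddPrimes z, fp p := ⟨_, rfl⟩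
  obtain ⟨Q, hQ⟩ : ∃ Q : ℕ, Q = 4 * ∏ p ∈ oddPrimes z, p := ⟨_, rfl⟩
  have hPM : PM (gz z) Mz Q := by
    rw [hMz, hQ]
    have := PM_prod (oddPrimes z) (by
      intro p hp
      have h := mem_oddPrimes.1 hp
      exact ⟨h.2, by omega⟩)
    exact this
  have hMz0 : 0 < Mz := by
    rw [hMz]
    exact lt_of_lt_of_le hK (KK_le z)
  rw [← hMz] at hz
  obtain ⟨M, hM⟩ : ∃ M : ℕ, 2 / η < M := exists_nat_gt _
  have hM0' : (0 : ℝ) < M := lt_trans (by positivity) hM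
  have hM0 : 0 < M := by exact_mod_cast hM0'
  have hM1 : (1 : ℝ) ≤ M := by exact_mod_cast hM0
  have h2M : 2 / (M : ℝ) < η := by
    rw [div_lt_iff₀ hM0']
    rw [div_lt_iff₀ hη0] at hM
    linarith
  obtain ⟨B, hB⟩ : ∃ B : ℝ, B = ((Bo M).card : ℝ) := ⟨_, rfl⟩
  have hB1 : B / (M : ℝ) ^ 3 ≤ 5 / 6 + η := by
    have h1 : 6 * B ≤ 5 * (M : ℝ) ^ 3 + 6 * (M : ℝ) ^ 2 + 6 := by
      rw [hB]
      exact_mod_cast card_Bo M
    have h2 : (M : ℝ) ^ 2 ≤ 1 / (M : ℝ) * (M : ℝ) ^ 3 := by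
      rw [one_div, ← div_eq_inv_mul, le_div_iff₀ hM0']
      exact le_of_eq (by ring)
    have h3 : (1 : ℝ) ≤ 1 / (M : ℝ) * (M : ℝ) ^ 3 := by
      have h4 : (1 : ℝ) ≤ (M : ℝ) ^ 2 := one_le_pow₀ hM1
      linarith
    have h5 : 1 / (M : ℝ) ≤ η / 2 := by
      have h6 : 2 / (M : ℝ) = 2 * (1 / (M : ℝ)) := by ring
      linarith
    have h7 : 1 / (M : ℝ) * (M : ℝ) ^ 3 ≤ η / 2 * (M : ℝ) ^ 3 :=
      mul_le_mul_of_nonneg_right h5 (by positivity)
    rw [div_le_iff₀ (by positivity)]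
    linarith
  have hval : B / (M : ℝ) ^ 3 * Mz < (5 / 6 + ε) * KK := by
    have h1 : B / (M : ℝ) ^ 3 * Mz ≤ (5 / 6 + η) * (KK + ε * KK / 4) :=
      mul_le_mul hB1 hz hMz0.le (by positivity)
    have h2 : 0 < ε * KK := by positivity
    have h3 : η * KK ≤ ε / 4 * KK := mul_le_mul_of_nonneg_right hη1 hK.le
    have h4 : η * (ε * KK / 4) ≤ 1 * (ε * KK / 4) :=
      mul_le_mul_of_nonneg_right hη2 (by positivity)
    have h5 : (5 / 6 + η) * (KK + ε * KK / 4) =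
        5 / 6 * KK + 5 / 6 * (ε * KK) / 4 + η * KK + η * (ε * KK / 4) := by ring
    have h6 : (5 / 6 + ε) * KK = 5 / 6 * KK + ε * KK := by ring
    rw [h6]
    rw [h5] at h1
    linarith
  have hlim := (up_tendsto B Mz Q M hM0').eventually_lt_const hval
  filter_upwards [hlim, eventually_gt_atTop (1 : ℝ)] with x hx hx1
  have hlog : 0 < Real.log x := Real.log_pos hx1
  have hpos : 0 < x * Real.log x ^ 3 := by
    have : 0 < x := by linarith
    positivity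
  rw [div_lt_iff₀ hpos] at hx
  have h1 := upper z M Q Mz hM0 hPM x hx1.le
  rw [← hB] at h1
  have h2 : (5 / 6 + ε) * KK * x * Real.log x ^ 3 = (5 / 6 + ε) * KK * (x * Real.log x ^ 3) := by
    ring
  rw [h2]
  linarith

end MP33509c
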