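import Pool.Agent.H.MP_33509c_nt.U2.Def

/-!
# U2/UpPt: the upper bound for one `n`

PROOF: map `t = (a, b, c) ∈ trip n` with `pm n t ≤ X` to `(dm n a, dm (n+1) b, dm (n+2) c)`. For a divisor `a` of `k ≥ 1` the number
`dm k a` is a divisor of `k`, at least 1, with `dm k a * dm k a ≤ k` (`Nat.div_mul_cancel`), so it is at most `m` if
`k < (m + 1) * (m + 1)`. The image lies in the set on the right, and every fibre has at most 8 elements: if `dm k a = e` then
`a = e` or `a = k / e` (`Nat.div_div_self`), so the fibre of `(e, f, g)` is contained in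
`{e, n / e} × {f, (n+1) / f} × {g, (n+2) / g}`. `Finset.card_le_mul_card_image_of_maps_to`.
-/

set_option autoImplicit false

namespace MP33509c

open Finset

private lemma UpPt_dm (k m a : ℕ) (hk : 1 ≤ k) (hm : k < (m + 1) * (m + 1)) (ha : a ∈ k.divisors) :
    dm k a ∣ k ∧ 1 ≤ dm k a ∧ dm k a ≤ m := by
  have hak : a ∣ k := Nat.dvd_of_mem_divisors ha
  have h1 : a * (k / a) = k := Nat.mul_div_cancel' hak
  have ha1 : 1 ≤ a := Nat.pos_of_dvd_of_pos hak hk
  have hb1 : 1 ≤ k / a := Nat.div_pos (Nat.le_of_dvd hk hak) ha1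
  refine ⟨?_, ?_, ?_⟩
  · unfold dm
    rcases le_total a (k / a) with h | h
    · rw [min_eq_left h]; exact hak
    · rw [min_eq_right h]; exact Nat.div_dvd_of_dvd hak
  · exact le_min ha1 hb1
  · by_contra hc
    rw [not_le] at hc
    have h2 : m + 1 ≤ a := le_trans hc (min_le_left _ _)
    have h3 : m + 1 ≤ k / a := le_trans hc (min_le_right _ _)
    have h4 := Nat.mul_le_mul h2 h3
    rw [h1] at h4
    exact absurd hm (not_lt.mpr h4)

private lemma UpPt_fib (k e a : ℕ) (hk : 1 ≤ k) (ha : a ∈ k.divisors) (h : dm k a = e) :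
    a ∈ ({e, k / e} : Finset ℕ) := by
  have hak : a ∣ k := Nat.dvd_of_mem_divisors ha
  rw [Finset.mem_insert, Finset.mem_singleton]
  unfold dm at h
  rcases le_total a (k / a) with h1 | h1
  · rw [min_eq_left h1] at h
    exact Or.inl h
  · rw [min_eq_right h1] at h
    right
    rw [← h]
    exact (Nat.div_div_self hak (by omega)).symm

theorem up_pt (n X m : ℕ) (hn : 1 ≤ n) (hm : n + 2 < (m + 1) * (m + 1)) :
    sm X n ≤ 8 * ((Reg m X).filter (Div3 n)).card := by
  classical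
  unfold sm
  refine Finset.card_le_mul_card_image_of_maps_to
    (f := fun t : ℕ × ℕ × ℕ => (dm n t.1, dm (n + 1) t.2.1, dm (n + 2) t.2.2)) ?_ 8 ?_
  · intro t ht
    rw [Finset.mem_filter] at ht
    obtain ⟨ht1, ht2⟩ := ht
    unfold trip at ht1
    rw [Finset.mem_product, Finset.mem_product] at ht1
    obtain ⟨a1, a2, a3⟩ := UpPt_dm n m t.1 hn (by omega) ht1.1
    obtain ⟨b1, b2, b3⟩ := UpPt_dm (n + 1) m t.2.1 (by omega) (by omega) ht1.2.1
    obtain ⟨c1, c2, c3⟩ := UpPt_dm (n + 2) m t.2.2 (by omega) hm ht1.2.2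
    unfold pm at ht2
    rw [Finset.mem_filter]
    refine ⟨?_, a1, b1, c1⟩
    unfold Reg
    rw [Finset.mem_filter, Finset.mem_product, Finset.mem_product, Finset.mem_Icc, Finset.mem_Icc,
      Finset.mem_Icc]
    exact ⟨⟨⟨a2, a3⟩, ⟨b2, b3⟩, ⟨c2, c3⟩⟩, ht2⟩
  · rintro ⟨e, f, g⟩ -
    have hsub : (((trip n).filter fun t => pm n t ≤ X).filter fun t : ℕ × ℕ × ℕ =>
        (dm n t.1, dm (n + 1) t.2.1, dm (n + 2) t.2.2) = (e, f, g)) ⊆
        ({e, n / e} : Finset ℕ) ×ˢ ({f, (n + 1) / f} : Finset ℕ) ×ˢ ({g, (n + 2) / g} : Finset ℕ) := by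
      intro t ht
      rw [Finset.mem_filter, Finset.mem_filter] at ht
      obtain ⟨⟨ht1, -⟩, ht3⟩ := ht
      unfold trip at ht1
      rw [Finset.mem_product, Finset.mem_product] at ht1
      have e1 := congrArg Prod.fst ht3
      have e2 := congrArg (fun q => q.2.1) ht3
      have e3 := congrArg (fun q => q.2.2) ht3
      rw [Finset.mem_product, Finset.mem_product]
      exact ⟨UpPt_fib n e t.1 hn ht1.1 e1, UpPt_fib (n + 1) f t.2.1 (by omega) ht1.2.1 e2,
        UpPt_fib (n + 2) g t.2.2 (by omega) ht1.2.2 e3⟩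
    refine (Finset.card_le_card hsub).trans ?_
    rw [Finset.card_product, Finset.card_product]
    calc ({e, n / e} : Finset ℕ).card * (({f, (n + 1) / f} : Finset ℕ).card * ({g, (n + 2) / g} : Finset ℕ).card)
        ≤ 2 * (2 * 2) := Nat.mul_le_mul Finset.card_le_two (Nat.mul_le_mul Finset.card_le_two Finset.card_le_two)
      _ = 8 := by norm_num

end MP33509c
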