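import Pool.Agent.H.MP_33509c_nt.U2.UpPt
import Pool.Agent.H.MP_33509c_nt.U2.UpCnt

/-!
# U2/UpSum: the sum over `n`

PROOF. `SM_le`: `up_pt` for `n ≤ X`, exchange the sums over `n` and over `t ∈ Reg m X`, `count_le` and `rho_le_gz` for every `t`
(`wt t = 1 / (a b c)`).
`card_Reg`: `#Reg ≤ ∑_{a ≤ m} ∑_{b ≤ m} #{c : 1 ≤ c, a b c ≤ X} ≤ ∑ ∑ X / (a b)`.
-/

set_option autoImplicit false

namespace MP33509c

open Finset

theorem SM_le (z X m : ℕ) (hm : X + 2 < (m + 1) * (m + 1)) :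
    (SM X : ℝ) ≤ 8 * (X * ∑ t ∈ Reg m X, gz z t.1 t.2.1 t.2.2 * wt t + (Reg m X).card) := by
  have h1 : SM X ≤ ∑ n ∈ Icc 1 X, 8 * ((Reg m X).filter (Div3 n)).card := by
    unfold SM
    refine Finset.sum_le_sum fun n hn => ?_
    rw [Finset.mem_Icc] at hn
    exact up_pt n X m hn.1 (by omega)
  have h2 : ∑ n ∈ Icc 1 X, ((Reg m X).filter (Div3 n)).card =
      ∑ t ∈ Reg m X, ((Icc 1 X).filter (fun n => Div3 n t)).card :=
    Finset.sum_card_bipartiteAbove_eq_sum_card_bipartiteBelow Div3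
  rw [← Finset.mul_sum, h2] at h1
  have h3 : (SM X : ℝ) ≤ 8 * ∑ t ∈ Reg m X, (((Icc 1 X).filter (fun n => Div3 n t)).card : ℝ) := by
    have h4 : (SM X : ℝ) ≤ ((8 * ∑ t ∈ Reg m X, ((Icc 1 X).filter (fun n => Div3 n t)).card : ℕ) : ℝ) := by
      exact_mod_cast h1
    rw [Nat.cast_mul, Nat.cast_sum] at h4
    exact_mod_cast h4
  refine h3.trans (mul_le_mul_of_nonneg_left ?_ (by norm_num))
  have h5 : ∀ t ∈ Reg m X, (((Icc 1 X).filter (fun n => Div3 n t)).card : ℝ) ≤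
      X * (gz z t.1 t.2.1 t.2.2 * wt t) + 1 := by
    intro t ht
    obtain ⟨a, b, c⟩ := t
    simp only [Reg, Finset.mem_filter, Finset.mem_product, Finset.mem_Icc] at ht
    obtain ⟨⟨⟨ha, -⟩, ⟨hb, -⟩, ⟨hc, -⟩⟩, -⟩ := ht
    have ha' : (0 : ℝ) < a := by exact_mod_cast ha
    have hb' : (0 : ℝ) < b := by exact_mod_cast hb
    have hc' : (0 : ℝ) < c := by exact_mod_cast hc
    refine (count_le a b c X ha hb hc).trans (add_le_add_left ?_ 1)
    have h6 := rho_le_gz z a b c ha hb hc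
    have h7 : (rho a b c : ℝ) * X / (a * b * c) = X * ((rho a b c : ℝ) * wt (a, b, c)) := by
      unfold wt
      simp only
      field_simp
    rw [h7]
    have h8 : 0 ≤ wt (a, b, c) := by
      unfold wt
      positivity
    exact mul_le_mul_of_nonneg_left (mul_le_mul_of_nonneg_right h6 h8) (Nat.cast_nonneg X)
  refine (Finset.sum_le_sum h5).trans (le_of_eq ?_)
  rw [Finset.sum_add_distrib, ← Finset.mul_sum, Finset.sum_const, nsmul_eq_mul, mul_one]

theorem UpSum_count (m X k : ℕ) (hk : 0 < k) :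
    (((Icc 1 m).filter fun c => k * c ≤ X).card : ℝ) ≤ X / k := by
  have h1 : ((Icc 1 m).filter fun c => k * c ≤ X) ⊆ Icc 1 (X / k) := by
    intro c hc
    rw [Finset.mem_filter, Finset.mem_Icc] at hc
    rw [Finset.mem_Icc, Nat.le_div_iff_mul_le hk]
    refine ⟨hc.1.1, ?_⟩
    have := hc.2
    rw [mul_comm] at this
    exact this
  have h2 := Finset.card_le_card h1
  rw [Nat.card_Icc, Nat.add_sub_cancel] at h2
  have h3 : (((Icc 1 m).filter fun c => k * c ≤ X).card : ℝ) ≤ ((X / k : ℕ) : ℝ) := by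
    exact_mod_cast h2
  exact h3.trans Nat.cast_div_le

theorem card_Reg (m X : ℕ) : ((Reg m X).card : ℝ) ≤ X * Hs m ^ 2 := by
  have h1 : (Reg m X).card =
      ∑ a ∈ Icc 1 m, ∑ b ∈ Icc 1 m, ((Icc 1 m).filter fun c => a * b * c ≤ X).card := by
    unfold Reg
    rw [Finset.card_filter, Finset.sum_product]
    refine Finset.sum_congr rfl fun a _ => ?_
    rw [Finset.sum_product]
    refine Finset.sum_congr rfl fun b _ => ?_
    rw [Finset.card_filter]
  rw [h1]
  push_cast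
  have h2 : ∀ a ∈ Icc 1 m, ∀ b ∈ Icc 1 m,
      (((Icc 1 m).filter fun c => a * b * c ≤ X).card : ℝ) ≤ X * ((1 / (a : ℝ)) * (1 / (b : ℝ))) := by
    intro a ha b hb
    rw [Finset.mem_Icc] at ha hb
    have h3 := UpSum_count m X (a * b) (Nat.mul_pos ha.1 hb.1)
    refine h3.trans (le_of_eq ?_)
    push_cast
    rw [one_div_mul_one_div, mul_one_div]
  refine (Finset.sum_le_sum fun a ha => Finset.sum_le_sum fun b hb => h2 a ha b hb).trans
    (le_of_eq ?_)
  unfold Hs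
  rw [sq, Finset.sum_mul_sum, Finset.mul_sum]
  refine Finset.sum_congr rfl fun a _ => ?_
  rw [Finset.mul_sum]

end MP33509c
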